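import Pool.Agent.MBD.Def

/-!
Row F, part 1: the product function `h`, its decomposition, orthogonality and the tail bound.
-/

set_option autoImplicit false
open Finset

namespace Pool.Agent.MBD

namespace Blk

/-- `e^{iπ/3}` -/
noncomputable def ze : ℂ := ⟨1 / 2, Real.sqrt 3 / 2⟩
/-- `e^{2iπ/3}` -/
noncomputable def om : ℂ := ⟨-1 / 2, Real.sqrt 3 / 2⟩
/-- mean of the letter function -/
noncomputable def mu : ℂ := (2 + ze) / 3
/-- the letter function -/
noncomputable def g (a : ZMod 3) : ℂ := if a = 1 then ze else 1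
/-- centred letter function -/
noncomputable def w (a : ZMod 3) : ℂ := g a - mu

lemma sq3 : Real.sqrt 3 * Real.sqrt 3 = 3 := Real.mul_self_sqrt (by norm_num)

lemma ze_sq : ze * ze = om := by
  apply Complex.ext
  · simp only [ze, om, Complex.mul_re]; nlinarith [sq3]
  · simp only [ze, om, Complex.mul_im]; ring

lemma om_cube : om ^ 3 = 1 := by
  have h2 : om * om = ⟨-1 / 2, -(Real.sqrt 3 / 2)⟩ := by
    apply Complex.ext
    · simp only [om, Complex.mul_re]; nlinarith [sq3]
    · simp only [om, Complex.mul_im]; ring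
  have : om ^ 3 = om * om * om := by ring
  rw [this, h2]
  apply Complex.ext
  · simp only [om, Complex.mul_re, Complex.one_re]; nlinarith [sq3]
  · simp only [om, Complex.mul_im, Complex.one_im]; ring

lemma normSq_ze : Complex.normSq ze = 1 := by
  simp only [ze, Complex.normSq_apply]; nlinarith [sq3]

lemma norm_ze : ‖ze‖ = 1 := by
  rw [Complex.norm_def, normSq_ze]; simp

lemma normSq_mu : Complex.normSq mu = 7 / 9 := by
  have h : mu = ⟨5 / 6, Real.sqrt 3 / 6⟩ := by
    apply Complex.ext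
    · simp [mu, ze]; norm_num
    · simp [mu, ze]; ring
  rw [h]; simp only [Complex.normSq_apply]; nlinarith [sq3]

lemma w_one : w 1 = ⟨-1 / 3, Real.sqrt 3 / 3⟩ := by
  have h : w 1 = ze - mu := by simp [w, g]
  rw [h]
  apply Complex.ext
  · simp [mu, ze]; norm_num
  · simp [mu, ze]; ring

lemma w_other {a : ZMod 3} (ha : a ≠ 1) : w a = ⟨1 / 6, -(Real.sqrt 3 / 6)⟩ := by
  have h : w a = 1 - mu := by simp [w, g, ha]
  rw [h]
  apply Complex.ext
  · simp [mu, ze]; norm_num
  · simp [mu, ze]; ring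

lemma sum_z3 {M : Type*} [AddCommMonoid M] (f : ZMod 3 → M) : ∑ a, f a = f 0 + f 1 + f 2 := by
  have : (univ : Finset (ZMod 3)) = {0, 1, 2} := by decide
  rw [this]
  rw [Finset.sum_insert (by decide), Finset.sum_insert (by decide), Finset.sum_singleton, add_assoc]

lemma sum_w : ∑ a, w a = 0 := by
  rw [sum_z3, w_one, w_other (a := 0) (by decide), w_other (a := 2) (by decide)]
  apply Complex.ext
  · simp; norm_num
  · simp; ring

lemma normSq_w_one : Complex.normSq (w 1) = 4 / 9 := by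
  rw [w_one]; simp only [Complex.normSq_apply]; nlinarith [sq3]
lemma normSq_w_other {a : ZMod 3} (ha : a ≠ 1) : Complex.normSq (w a) = 1 / 9 := by
  rw [w_other ha]; simp only [Complex.normSq_apply]; nlinarith [sq3]

lemma sum_normSq_w : ∑ a, Complex.normSq (w a) = 2 / 3 := by
  rw [sum_z3, normSq_w_one, normSq_w_other (a := 0) (by decide), normSq_w_other (a := 2) (by decide)]
  norm_num

lemma norm_w_le (a : ZMod 3) : ‖w a‖ ≤ 1 := by
  have h : Complex.normSq (w a) ≤ 1 := by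
    by_cases ha : a = 1
    · subst ha; rw [normSq_w_one]; norm_num
    · rw [normSq_w_other ha]; norm_num
  rw [Complex.norm_def]
  exact Real.sqrt_le_one.mpr h

lemma norm_mu_le : ‖mu‖ ≤ 1 := by
  rw [Complex.norm_def, normSq_mu]
  exact Real.sqrt_le_one.mpr (by norm_num)

/-- component of `h` on the set `S` -/
noncomputable def hS {n : ℕ} (S : Finset (Fin n)) (b : Fin n → ZMod 3) : ℂ :=
  mu ^ (n - S.card) * ∏ t ∈ S, w (b t)

/-- the product function -/
noncomputable def h {n : ℕ} (b : Fin n → ZMod 3) : ℂ := ∏ t, g (b t)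

/-- the low part -/
noncomputable def u {n : ℕ} (s : ℕ) (b : Fin n → ZMod 3) : ℂ :=
  ∑ S ∈ univ.filter (fun S : Finset (Fin n) => S.card ≤ s), hS S b

/-- the high part -/
noncomputable def e {n : ℕ} (s : ℕ) (b : Fin n → ZMod 3) : ℂ :=
  ∑ S ∈ univ.filter (fun S : Finset (Fin n) => ¬ S.card ≤ s), hS S b

lemma u_add_e {n : ℕ} (s : ℕ) (b : Fin n → ZMod 3) : u s b + e s b = h b := by
  unfold u e
  rw [Finset.sum_filter_add_sum_filter_not]
  have h1 : h b = ∏ t, (w (b t) + mu) := by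
    unfold h w; exact prod_congr rfl fun t _ => by ring
  rw [h1, Finset.prod_add, Finset.powerset_univ]
  refine sum_congr rfl fun S _ => ?_
  unfold hS
  rw [Finset.prod_const, mul_comm, Finset.card_sdiff_of_subset (subset_univ S), Finset.card_univ,
    Fintype.card_fin]

lemma norm_h {n : ℕ} (b : Fin n → ZMod 3) : ‖h b‖ = 1 := by
  unfold h
  rw [norm_prod]
  refine prod_eq_one fun t _ => ?_
  unfold g
  split_ifs
  · exact norm_ze
  · simp

lemma h_sq {n : ℕ} (b : Fin n → ZMod 3) : h b ^ 2 = om ^ (cnt (fun x : ZMod 3 => x = 1) b) := by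
  unfold h cnt
  rw [← prod_pow, ← Finset.prod_const, Finset.prod_filter]
  refine prod_congr rfl fun t _ => ?_
  unfold g
  split_ifs
  · rw [pow_two, ze_sq]
  · simp

lemma norm_hS_le {n : ℕ} (S : Finset (Fin n)) (b : Fin n → ZMod 3) : ‖hS S b‖ ≤ 1 := by
  unfold hS
  rw [norm_mul, norm_pow, norm_prod]
  refine mul_le_one₀ (pow_le_one₀ (norm_nonneg _) norm_mu_le) (by positivity) ?_
  exact prod_le_one (fun _ _ => norm_nonneg _) fun t _ => norm_w_le _

lemma norm_e_le {n : ℕ} (s : ℕ) (b : Fin n → ZMod 3) : ‖e s b‖ ≤ 2 ^ n := by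
  unfold e
  refine (norm_sum_le _ _).trans ?_
  calc ∑ S ∈ univ.filter (fun S : Finset (Fin n) => ¬ S.card ≤ s), ‖hS S b‖
      ≤ ∑ S ∈ univ.filter (fun S : Finset (Fin n) => ¬ S.card ≤ s), (1 : ℝ) :=
        sum_le_sum fun S _ => norm_hS_le S b
    _ ≤ ∑ S : Finset (Fin n), (1 : ℝ) :=
        sum_le_sum_of_subset_of_nonneg (filter_subset _ _) fun _ _ _ => zero_le_one
    _ = 2 ^ n := by simp

lemma sum_prod_pi {n : ℕ} {R : Type*} [CommSemiring R] (G : Fin n → ZMod 3 → R) :
    ∑ b : Fin n → ZMod 3, ∏ t, G t (b t) = ∏ t, ∑ a, G t a := by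
  rw [Finset.prod_univ_sum, Fintype.piFinset_univ]

lemma sum_hS_mul {n : ℕ} (S T : Finset (Fin n)) :
    ∑ b : Fin n → ZMod 3, hS S b * (starRingEnd ℂ) (hS T b) =
      if S = T then (3 : ℂ) ^ n * ((7 / 9 : ℝ) ^ (n - S.card) * (2 / 9 : ℝ) ^ S.card : ℝ) else 0 := by
  have key : ∀ b : Fin n → ZMod 3, hS S b * (starRingEnd ℂ) (hS T b) =
      mu ^ (n - S.card) * (starRingEnd ℂ) mu ^ (n - T.card) *
        ∏ t, ((if t ∈ S then w (b t) else 1) * (if t ∈ T then (starRingEnd ℂ) (w (b t)) else 1)) := by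
    intro b
    unfold hS
    rw [prod_mul_distrib, Finset.prod_ite_mem, Finset.prod_ite_mem, univ_inter, univ_inter]
    simp only [map_mul, map_pow, map_prod]
    ring
  rw [sum_congr rfl fun b _ => key b, ← mul_sum,
    sum_prod_pi (fun t a => (if t ∈ S then w a else 1) *
      (if t ∈ T then (starRingEnd ℂ) (w a) else 1))]
  have hfac : ∀ t : Fin n, ∑ a, ((if t ∈ S then w a else 1) *
      (if t ∈ T then (starRingEnd ℂ) (w a) else 1)) =
      if t ∈ S then (if t ∈ T then (2 / 3 : ℂ) else 0) else (if t ∈ T then 0 else 3) := by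
    intro t
    by_cases hS' : t ∈ S <;> by_cases hT' : t ∈ T <;> simp only [hS', hT', if_true, if_false]
    · have : ∀ a, w a * (starRingEnd ℂ) (w a) = ((Complex.normSq (w a) : ℝ) : ℂ) := fun a => by
        rw [Complex.mul_conj]
      rw [sum_congr rfl fun a _ => this a, ← Complex.ofReal_sum, sum_normSq_w]
      norm_num
    · simp only [mul_one]; exact sum_w
    · simp only [one_mul]; rw [← map_sum, sum_w, map_zero]
    · simp
  rw [prod_congr rfl fun t _ => hfac t]
  by_cases hST : S = T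
  · subst hST
    rw [if_pos rfl]
    have h1 : (∏ t : Fin n, if t ∈ S then (if t ∈ S then (2 / 3 : ℂ) else 0)
        else (if t ∈ S then 0 else 3)) = ∏ t : Fin n, if t ∈ S then (2 / 3 : ℂ) else 3 := by
      refine prod_congr rfl fun t _ => ?_
      split_ifs <;> rfl
    rw [h1, Finset.prod_ite, Finset.prod_const, Finset.prod_const]
    have hc1 : (univ.filter fun t : Fin n => t ∈ S).card = S.card := by simp
    have hc2 : (univ.filter fun t : Fin n => ¬ t ∈ S).card = n - S.card := by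
      have : (univ.filter fun t : Fin n => ¬ t ∈ S) = Sᶜ := by ext; simp
      rw [this, card_compl, Fintype.card_fin]
    rw [hc1, hc2]
    have hmu : mu ^ (n - S.card) * (starRingEnd ℂ) mu ^ (n - S.card) =
        (((7 / 9 : ℝ) ^ (n - S.card) : ℝ) : ℂ) := by
      rw [← mul_pow, Complex.mul_conj, normSq_mu]
      push_cast; rfl
    rw [hmu]
    have hle : S.card ≤ n := by simpa using card_le_univ S
    have h3 : (3 : ℂ) ^ n = 3 ^ S.card * 3 ^ (n - S.card) := by
      rw [← pow_add]; congr 1; omega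
    rw [h3]
    push_cast
    have h4 : (2 / 3 : ℂ) ^ S.card = 3 ^ S.card * (2 / 9) ^ S.card := by
      rw [← mul_pow]; norm_num
    rw [h4]; ring
  · rw [if_neg hST]
    have : ∃ t, (t ∈ S ∧ t ∉ T) ∨ (t ∉ S ∧ t ∈ T) := by
      by_contra hcon
      push Not at hcon
      apply hST
      ext t
      constructor
      · intro ht; exact (hcon t).1 ht
      · intro ht
        by_contra hts
        exact (hcon t).2 hts ht
    obtain ⟨t, ht⟩ := this
    rw [Finset.prod_eq_zero (mem_univ t), mul_zero]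
    rcases ht with ⟨h1, h2⟩ | ⟨h1, h2⟩ <;> simp [h1, h2]

lemma sum_normSq_e {n : ℕ} (s : ℕ) :
    ∑ b : Fin n → ZMod 3, Complex.normSq (e s b) =
      3 ^ n * ∑ S ∈ univ.filter (fun S : Finset (Fin n) => ¬ S.card ≤ s),
        ((7 / 9 : ℝ) ^ (n - S.card) * (2 / 9 : ℝ) ^ S.card) := by
  have hC : ((∑ b : Fin n → ZMod 3, Complex.normSq (e s b) : ℝ) : ℂ) =
      ((3 ^ n * ∑ S ∈ univ.filter (fun S : Finset (Fin n) => ¬ S.card ≤ s),
        ((7 / 9 : ℝ) ^ (n - S.card) * (2 / 9 : ℝ) ^ S.card) : ℝ) : ℂ) := by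
    rw [Complex.ofReal_sum]
    have h1 : ∀ b : Fin n → ZMod 3, ((Complex.normSq (e s b) : ℝ) : ℂ) =
        ∑ S ∈ univ.filter (fun S : Finset (Fin n) => ¬ S.card ≤ s),
          ∑ T ∈ univ.filter (fun S : Finset (Fin n) => ¬ S.card ≤ s),
            hS S b * (starRingEnd ℂ) (hS T b) := by
      intro b
      rw [← Complex.mul_conj]
      unfold e
      rw [map_sum, sum_mul_sum]
    rw [sum_congr rfl fun b _ => h1 b, sum_comm]
    have h2 : ∀ S ∈ univ.filter (fun S : Finset (Fin n) => ¬ S.card ≤ s),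
        (∑ b : Fin n → ZMod 3, ∑ T ∈ univ.filter (fun S : Finset (Fin n) => ¬ S.card ≤ s),
            hS S b * (starRingEnd ℂ) (hS T b)) =
          (3 : ℂ) ^ n * ((7 / 9 : ℝ) ^ (n - S.card) * (2 / 9 : ℝ) ^ S.card : ℝ) := by
      intro S hSm
      rw [sum_comm, sum_congr rfl fun T _ => sum_hS_mul S T, Finset.sum_ite_eq, if_pos hSm]
    rw [sum_congr rfl h2, ← mul_sum]
    push_cast
    rfl
  exact_mod_cast hC

lemma mean_normSq_e_le {n : ℕ} (s : ℕ) :
    (∑ b : Fin n → ZMod 3, Complex.normSq (e s b)) / 3 ^ n ≤ (2 / 3 : ℝ) ^ s * (10 / 9) ^ n := by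
  rw [sum_normSq_e, mul_div_assoc, mul_comm, div_mul_cancel₀ _ (by positivity)]
  have hb : ∀ S ∈ univ.filter (fun S : Finset (Fin n) => ¬ S.card ≤ s),
      ((7 / 9 : ℝ) ^ (n - S.card) * (2 / 9 : ℝ) ^ S.card) ≤
        (2 / 3 : ℝ) ^ s * ((1 / 3 : ℝ) ^ S.card * (7 / 9) ^ (n - S.card)) := by
    intro S hSm
    rw [mem_filter] at hSm
    have hs : s ≤ S.card := by omega
    have h29 : (2 / 9 : ℝ) ^ S.card = (2 / 3 : ℝ) ^ S.card * (1 / 3) ^ S.card := by
      rw [← mul_pow]; norm_num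
    have hp : (2 / 3 : ℝ) ^ S.card ≤ (2 / 3 : ℝ) ^ s :=
      pow_le_pow_of_le_one (by norm_num) (by norm_num) hs
    rw [h29]
    calc (7 / 9 : ℝ) ^ (n - S.card) * ((2 / 3 : ℝ) ^ S.card * (1 / 3) ^ S.card)
        = (2 / 3 : ℝ) ^ S.card * ((1 / 3 : ℝ) ^ S.card * (7 / 9) ^ (n - S.card)) := by ring
      _ ≤ _ := mul_le_mul_of_nonneg_right hp (by positivity)
  refine (sum_le_sum hb).trans ?_
  rw [← mul_sum]
  refine mul_le_mul_of_nonneg_left ?_ (by positivity)
  calc ∑ S ∈ univ.filter (fun S : Finset (Fin n) => ¬ S.card ≤ s),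
        ((1 / 3 : ℝ) ^ S.card * (7 / 9) ^ (n - S.card))
      ≤ ∑ S : Finset (Fin n), ((1 / 3 : ℝ) ^ S.card * (7 / 9) ^ (n - S.card)) :=
        sum_le_sum_of_subset_of_nonneg (filter_subset _ _) fun _ _ _ => by positivity
    _ = (1 / 3 + 7 / 9 : ℝ) ^ n := by
        have := Fintype.sum_pow_mul_eq_add_pow (Fin n) (1 / 3 : ℝ) (7 / 9)
        rw [Fintype.card_fin] at this
        exact this
    _ = (10 / 9) ^ n := by norm_num

end Blk

end Pool.Agent.MBD
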