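import Pool.Agent.MBD.Block1

/-!
Row F, part 2: the approximate indicators, their degree and the limit in `L^p`, `p = 201/200`.
-/

set_option autoImplicit false
open Finset Filter Topology

namespace Pool.Agent.MBD

namespace Blk

/-- the character `a ↦ ω^a` -/
noncomputable def chi (a : ZMod 3) : ℂ := if a = 0 then 1 else if a = 1 then om else om ^ 2

lemma om_pow (N : ℕ) : om ^ N = chi (N : ZMod 3) := by
  have h1 : N = 3 * (N / 3) + N % 3 := (Nat.div_add_mod N 3).symm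
  have h2 : om ^ N = om ^ (N % 3) := by
    conv_lhs => rw [h1]
    rw [pow_add, pow_mul, om_cube, one_pow, one_mul]
  have h3 : (N : ZMod 3) = ((N % 3 : ℕ) : ZMod 3) := by
    rw [ZMod.natCast_mod]
  rw [h2, h3]
  have h4 : N % 3 < 3 := Nat.mod_lt _ (by norm_num)
  interval_cases (N % 3)
  · simp [chi]
  · simp [chi]
  · have : ((2 : ℕ) : ZMod 3) = 2 := rfl
    rw [this, chi, if_neg (by decide), if_neg (by decide)]

lemma om_sq_eq : om ^ 2 = ⟨-1 / 2, -(Real.sqrt 3 / 2)⟩ := by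
  rw [pow_two]
  apply Complex.ext
  · simp only [om, Complex.mul_re]; nlinarith [sq3]
  · simp only [om, Complex.mul_im]; ring

lemma chi_zero : chi 0 = ⟨1, 0⟩ := by simp [chi]; rfl
lemma chi_one : chi 1 = ⟨-1 / 2, Real.sqrt 3 / 2⟩ := by simp [chi]; rfl
lemma chi_two : chi 2 = ⟨-1 / 2, -(Real.sqrt 3 / 2)⟩ := by
  rw [chi, if_neg (by decide), if_neg (by decide), om_sq_eq]

lemma z3_cases (a : ZMod 3) : a = 0 ∨ a = 1 ∨ a = 2 := by revert a; decide

lemma sum_conj_chi : ∑ a, (starRingEnd ℂ) (chi a) = 0 := by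
  rw [sum_z3, chi_zero, chi_one, chi_two]
  apply Complex.ext
  · simp; norm_num
  · simp

lemma normSq_chi (a : ZMod 3) : Complex.normSq (chi a) = 1 := by
  rcases z3_cases a with h | h | h <;> subst h
  · rw [chi_zero]; simp [Complex.normSq_apply]
  · rw [chi_one]; simp only [Complex.normSq_apply]; nlinarith [sq3]
  · rw [chi_two]; simp only [Complex.normSq_apply]; nlinarith [sq3]

lemma norm_chi (a : ZMod 3) : ‖chi a‖ = 1 := by
  rw [Complex.norm_def, normSq_chi]; simp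

lemma ind_formula (a b : ZMod 3) :
    (1 + 2 * ((starRingEnd ℂ) (chi a) * chi b).re) / 3 = if b = a then (1 : ℝ) else 0 := by
  have h3 := sq3
  rcases z3_cases a with h | h | h <;> rcases z3_cases b with h' | h' | h' <;> subst h <;> subst h'
  all_goals first
    | rw [if_pos rfl]
    | rw [if_neg (by decide)]
  all_goals simp only [chi_zero, chi_one, chi_two, Complex.mul_re, Complex.conj_re, Complex.conj_im]
  all_goals nlinarith [h3]

/-- approximate indicators -/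
noncomputable def psi {n : ℕ} (s : ℕ) (a : ZMod 3) (b : Fin n → ZMod 3) : ℝ :=
  (1 + 2 * ((starRingEnd ℂ) (chi a) * (u s b) ^ 2).re) / 3

lemma sum_psi {n : ℕ} (s : ℕ) (b : Fin n → ZMod 3) : ∑ a, psi s a b = 1 := by
  unfold psi
  rw [← sum_div, sum_add_distrib, ← mul_sum, ← Complex.re_sum, ← sum_mul, sum_conj_chi]
  simp

lemma psi_mem {n : ℕ} (s : ℕ) (a : ZMod 3) : psi s a ∈ DegLE (Fin n) (ZMod 3) (2 * s) := by
  have hdec : (psi s a : (Fin n → ZMod 3) → ℝ) =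
      (fun _ => (1 / 3 : ℝ)) + ∑ S ∈ univ.filter (fun S : Finset (Fin n) => S.card ≤ s),
        ∑ T ∈ univ.filter (fun S : Finset (Fin n) => S.card ≤ s),
          fun b => (2 / 3 : ℝ) * ((starRingEnd ℂ) (chi a) * (hS S b * hS T b)).re := by
    funext b
    rw [Pi.add_apply, Finset.sum_apply]
    simp only [Finset.sum_apply]
    unfold psi u
    rw [pow_two, sum_mul_sum, mul_sum]
    simp only [mul_sum, Complex.re_sum]
    rw [add_div, sum_div]
    congr 1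
    refine sum_congr rfl fun S _ => ?_
    rw [sum_div]
    refine sum_congr rfl fun T _ => ?_
    ring
  rw [hdec]
  refine Submodule.add_mem _ (Submodule.subset_span ⟨∅, by simp, fun x y _ => rfl⟩) ?_
  refine Submodule.sum_mem _ fun S hSm => Submodule.sum_mem _ fun T hTm => ?_
  rw [mem_filter] at hSm hTm
  refine Submodule.subset_span ⟨S ∪ T, (card_union_le S T).trans (by omega), fun x y hxy => ?_⟩
  have h1 : hS S x = hS S y := by
    unfold hS; congr 1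
    exact prod_congr rfl fun t ht => by rw [hxy t (mem_union_left _ ht)]
  have h2 : hS T x = hS T y := by
    unfold hS; congr 1
    exact prod_congr rfl fun t ht => by rw [hxy t (mem_union_right _ ht)]
  simp only [h1, h2]

lemma abs_psi_sub_le {n : ℕ} (s : ℕ) (a : ZMod 3) (b : Fin n → ZMod 3) :
    |psi s a b - ind (fun x : ZMod 3 => x = 1) a b| ≤ ‖e s b‖ * (2 + ‖e s b‖) := by
  have h1 : ind (fun x : ZMod 3 => x = 1) a b =
      (1 + 2 * ((starRingEnd ℂ) (chi a) * (h b) ^ 2).re) / 3 := by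
    rw [h_sq, om_pow, ind_formula]; rfl
  have h2 : psi s a b - ind (fun x : ZMod 3 => x = 1) a b =
      (2 / 3) * ((starRingEnd ℂ) (chi a) * ((u s b) ^ 2 - (h b) ^ 2)).re := by
    rw [h1]; unfold psi
    rw [mul_sub, Complex.sub_re]; ring
  rw [h2, abs_mul]
  have h3 : |((starRingEnd ℂ) (chi a) * ((u s b) ^ 2 - (h b) ^ 2)).re| ≤
      ‖(u s b) ^ 2 - (h b) ^ 2‖ := by
    refine (Complex.abs_re_le_norm _).trans ?_
    rw [norm_mul, RCLike.norm_conj, norm_chi, one_mul]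
  have h4 : (u s b) ^ 2 - (h b) ^ 2 = -(e s b) * (2 * h b - e s b) := by
    rw [← u_add_e s b]; ring
  have h5 : ‖(u s b) ^ 2 - (h b) ^ 2‖ ≤ ‖e s b‖ * (2 + ‖e s b‖) := by
    rw [h4, norm_mul, norm_neg]
    refine mul_le_mul_of_nonneg_left ?_ (norm_nonneg _)
    refine (norm_sub_le _ _).trans ?_
    rw [norm_mul, norm_h]
    simp
  have h6 : |(2 / 3 : ℝ)| ≤ 1 := by rw [abs_of_pos] <;> norm_num
  calc |(2 / 3 : ℝ)| * |((starRingEnd ℂ) (chi a) * ((u s b) ^ 2 - (h b) ^ 2)).re|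
      ≤ 1 * (‖e s b‖ * (2 + ‖e s b‖)) :=
        mul_le_mul h6 (h3.trans h5) (abs_nonneg _) zero_le_one
    _ = _ := one_mul _

/-- the constant `q < 0.85` -/
noncomputable def q : ℝ := (8 / 27) * (10 / 9) ^ 10

lemma q_pos : 0 < q := by unfold q; positivity

lemma mean_sq_le (k : ℕ) :
    (∑ b : Fin (10 * k) → ZMod 3, ‖e (3 * k) b‖ ^ 2) / 3 ^ (10 * k) ≤ q ^ k := by
  have h1 := mean_normSq_e_le (n := 10 * k) (3 * k)
  have h2 : ∀ b : Fin (10 * k) → ZMod 3, ‖e (3 * k) b‖ ^ 2 = Complex.normSq (e (3 * k) b) :=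
    fun b => by rw [Complex.normSq_eq_norm_sq]
  rw [sum_congr rfl fun b _ => h2 b]
  refine h1.trans (le_of_eq ?_)
  unfold q
  rw [pow_mul, pow_mul, ← mul_pow]
  norm_num

lemma mean_norm_le (k : ℕ) :
    (∑ b : Fin (10 * k) → ZMod 3, ‖e (3 * k) b‖) / 3 ^ (10 * k) ≤ (Real.sqrt q) ^ k := by
  have hcard : (Fintype.card (Fin (10 * k) → ZMod 3) : ℝ) = 3 ^ (10 * k) := by
    simp [ZMod.card]
  have h1 : (∑ b : Fin (10 * k) → ZMod 3, ‖e (3 * k) b‖) ^ 2 ≤
      (3 : ℝ) ^ (10 * k) * ∑ b : Fin (10 * k) → ZMod 3, ‖e (3 * k) b‖ ^ 2 := by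
    have := sq_sum_le_card_mul_sum_sq (s := (univ : Finset (Fin (10 * k) → ZMod 3)))
      (f := fun b => ‖e (3 * k) b‖)
    rw [card_univ, hcard] at this
    exact this
  have h2 := mean_sq_le k
  have hpos : (0 : ℝ) < 3 ^ (10 * k) := by positivity
  have h3 : ((∑ b : Fin (10 * k) → ZMod 3, ‖e (3 * k) b‖) / 3 ^ (10 * k)) ^ 2 ≤ q ^ k := by
    rw [div_pow, div_le_iff₀ (by positivity)]
    rw [div_le_iff₀ hpos] at h2
    calc (∑ b : Fin (10 * k) → ZMod 3, ‖e (3 * k) b‖) ^ 2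
        ≤ (3 : ℝ) ^ (10 * k) * ∑ b : Fin (10 * k) → ZMod 3, ‖e (3 * k) b‖ ^ 2 := h1
      _ ≤ (3 : ℝ) ^ (10 * k) * (q ^ k * 3 ^ (10 * k)) := mul_le_mul_of_nonneg_left h2 hpos.le
      _ = q ^ k * (3 ^ (10 * k)) ^ 2 := by ring
  have h4 : ((Real.sqrt q) ^ k) ^ 2 = q ^ k := by
    rw [← pow_mul, mul_comm, pow_mul, Real.sq_sqrt q_pos.le]
  rw [← h4] at h3
  exact le_of_sq_le_sq' h3 (by positivity)
where
  le_of_sq_le_sq' {a b : ℝ} (h : a ^ 2 ≤ b ^ 2) (hb : 0 ≤ b) : a ≤ b := by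
    nlinarith [abs_le_of_sq_le_sq h hb, (abs_le.mp (abs_le_of_sq_le_sq h hb)).2]

lemma sqrt_q_le_one : Real.sqrt q ≤ 1 := by
  rw [Real.sqrt_le_one]
  unfold q; norm_num

lemma mean_err_le (k : ℕ) :
    (∑ b : Fin (10 * k) → ZMod 3, ‖e (3 * k) b‖ * (2 + ‖e (3 * k) b‖)) / 3 ^ (10 * k) ≤
      3 * (Real.sqrt q) ^ k := by
  have h1 : ∀ b : Fin (10 * k) → ZMod 3, ‖e (3 * k) b‖ * (2 + ‖e (3 * k) b‖) =
      2 * ‖e (3 * k) b‖ + ‖e (3 * k) b‖ ^ 2 := fun b => by ring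
  rw [sum_congr rfl fun b _ => h1 b, sum_add_distrib, ← mul_sum, add_div, mul_div_assoc]
  have h2 := mean_norm_le k
  have h3 := mean_sq_le k
  have h4 : q ^ k ≤ (Real.sqrt q) ^ k := by
    have : q ^ k = (Real.sqrt q) ^ k * (Real.sqrt q) ^ k := by
      rw [← mul_pow, Real.mul_self_sqrt q_pos.le]
    rw [this]
    calc (Real.sqrt q) ^ k * (Real.sqrt q) ^ k ≤ (Real.sqrt q) ^ k * 1 :=
          mul_le_mul_of_nonneg_left (pow_le_one₀ (Real.sqrt_nonneg _) sqrt_q_le_one) (by positivity)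
      _ = _ := mul_one _
  linarith

/-- the rate `4^(1/20) √q < 1` -/
noncomputable def r : ℝ := (4 : ℝ) ^ (1 / 20 : ℝ) * Real.sqrt q

lemma r_nonneg : 0 ≤ r := by unfold r; positivity

lemma r_lt_one : r < 1 := by
  have h1 : r ^ 20 < 1 := by
    unfold r
    rw [mul_pow, ← Real.rpow_natCast ((4 : ℝ) ^ (1 / 20 : ℝ)) 20, ← Real.rpow_mul (by norm_num)]
    have h2 : Real.sqrt q ^ 20 = q ^ 10 := by
      rw [show (20 : ℕ) = 2 * 10 by norm_num, pow_mul, Real.sq_sqrt q_pos.le]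
    rw [h2]
    unfold q
    norm_num
  by_contra hcon
  rw [not_lt] at hcon
  exact absurd h1 (not_lt.mpr (one_le_pow₀ hcon))

lemma mean_rpow_le (k : ℕ) (a : ZMod 3) :
    mean (fun b : Fin (10 * k) → ZMod 3 =>
      |psi (3 * k) a b - ind (fun x : ZMod 3 => x = 1) a b| ^ (201 / 200 : ℝ)) ≤
      9 * r ^ k := by
  set F : (Fin (10 * k) → ZMod 3) → ℝ := fun b => ‖e (3 * k) b‖ * (2 + ‖e (3 * k) b‖) with hF
  have hF0 : ∀ b, 0 ≤ F b := fun b => by rw [hF]; positivity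
  have hFle : ∀ b, F b ≤ 3 * 4 ^ (10 * k) := by
    intro b
    have h1 := norm_e_le (3 * k) b
    have h2 : (1 : ℝ) ≤ 2 ^ (10 * k) := one_le_pow₀ (by norm_num)
    have h3 : (4 : ℝ) ^ (10 * k) = 2 ^ (10 * k) * 2 ^ (10 * k) := by
      rw [← mul_pow]; norm_num
    rw [h3]
    calc F b ≤ 2 ^ (10 * k) * (2 + 2 ^ (10 * k)) :=
          mul_le_mul h1 (by linarith) (by positivity) (by positivity)
      _ ≤ 2 ^ (10 * k) * (2 * 2 ^ (10 * k) + 2 ^ (10 * k)) :=
          mul_le_mul_of_nonneg_left (by linarith) (by positivity)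
      _ = _ := by ring
  have hpt : ∀ b, |psi (3 * k) a b - ind (fun x : ZMod 3 => x = 1) a b| ^ (201 / 200 : ℝ) ≤
      (3 * 4 ^ (10 * k)) ^ (1 / 200 : ℝ) * F b := by
    intro b
    have h1 := abs_psi_sub_le (3 * k) a b
    calc |psi (3 * k) a b - ind (fun x : ZMod 3 => x = 1) a b| ^ (201 / 200 : ℝ)
        ≤ (F b) ^ (201 / 200 : ℝ) := Real.rpow_le_rpow (abs_nonneg _) h1 (by norm_num)
      _ = (F b) ^ (1 / 200 : ℝ) * F b := by
          rcases eq_or_lt_of_le (hF0 b) with h0 | h0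
          · rw [← h0, Real.zero_rpow (by norm_num), mul_zero]
          · rw [show (201 / 200 : ℝ) = 1 / 200 + 1 by norm_num, Real.rpow_add h0, Real.rpow_one]
      _ ≤ (3 * 4 ^ (10 * k)) ^ (1 / 200 : ℝ) * F b :=
          mul_le_mul_of_nonneg_right (Real.rpow_le_rpow (hF0 b) (hFle b) (by norm_num)) (hF0 b)
  have hcard : (Fintype.card (Fin (10 * k) → ZMod 3) : ℝ) = 3 ^ (10 * k) := by
    simp [ZMod.card]
  unfold mean
  rw [hcard]
  calc (∑ b : Fin (10 * k) → ZMod 3,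
          |psi (3 * k) a b - ind (fun x : ZMod 3 => x = 1) a b| ^ (201 / 200 : ℝ)) / 3 ^ (10 * k)
      ≤ (∑ b, (3 * 4 ^ (10 * k)) ^ (1 / 200 : ℝ) * F b) / 3 ^ (10 * k) :=
        div_le_div_of_nonneg_right (sum_le_sum fun b _ => hpt b) (by positivity)
    _ = (3 * 4 ^ (10 * k)) ^ (1 / 200 : ℝ) * ((∑ b, F b) / 3 ^ (10 * k)) := by
        rw [← mul_sum, mul_div_assoc]
    _ ≤ (3 * 4 ^ (10 * k)) ^ (1 / 200 : ℝ) * (3 * (Real.sqrt q) ^ k) :=
        mul_le_mul_of_nonneg_left (mean_err_le k) (by positivity)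
    _ ≤ 9 * r ^ k := by
        have h1 : (3 * (4 : ℝ) ^ (10 * k)) ^ (1 / 200 : ℝ) =
            3 ^ (1 / 200 : ℝ) * ((4 : ℝ) ^ (1 / 20 : ℝ)) ^ k := by
          rw [Real.mul_rpow (by norm_num) (by positivity)]
          congr 1
          rw [← Real.rpow_natCast (4 : ℝ) (10 * k), ← Real.rpow_mul (by norm_num),
            ← Real.rpow_natCast ((4 : ℝ) ^ (1 / 20 : ℝ)) k, ← Real.rpow_mul (by norm_num)]
          congr 1
          push_cast; ring
        have h2 : (3 : ℝ) ^ (1 / 200 : ℝ) ≤ 3 := by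
          calc (3 : ℝ) ^ (1 / 200 : ℝ) ≤ 3 ^ (1 : ℝ) :=
                Real.rpow_le_rpow_of_exponent_le (by norm_num) (by norm_num)
            _ = 3 := Real.rpow_one 3
        rw [h1]
        have h3 : r ^ k = ((4 : ℝ) ^ (1 / 20 : ℝ)) ^ k * (Real.sqrt q) ^ k := by
          unfold r; rw [mul_pow]
        rw [h3]
        have h4 : (0 : ℝ) ≤ ((4 : ℝ) ^ (1 / 20 : ℝ)) ^ k * (Real.sqrt q) ^ k := by positivity
        nlinarith

end Blk

open Blk in
theorem block_approx : ∃ ψ : ∀ k : ℕ, ZMod 3 → (Fin (10 * k) → ZMod 3) → ℝ,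
    (∀ k b, ∑ a, ψ k a b = 1) ∧ (∀ k a, ψ k a ∈ DegLE (Fin (10 * k)) (ZMod 3) (6 * k)) ∧
    ∀ a, Tendsto (fun k => nrm (201 / 200) (fun b => ψ k a b - ind (fun x : ZMod 3 => x = 1) a b))
      atTop (𝓝 0) := by
  refine ⟨fun k => psi (3 * k), fun k b => sum_psi _ b, fun k a => ?_, fun a => ?_⟩
  · have := psi_mem (n := 10 * k) (3 * k) a
    rwa [show 2 * (3 * k) = 6 * k by ring] at this
  · have h1 : Tendsto (fun k : ℕ => 9 * r ^ k) atTop (𝓝 0) := by
      have := (tendsto_pow_atTop_nhds_zero_of_lt_one r_nonneg r_lt_one).const_mul 9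
      rwa [mul_zero] at this
    have h2 : Tendsto (fun k : ℕ => (9 * r ^ k) ^ (1 / (201 / 200) : ℝ)) atTop (𝓝 0) := by
      have := h1.rpow_const (p := (1 / (201 / 200) : ℝ)) (Or.inr (by norm_num))
      rwa [Real.zero_rpow (by norm_num)] at this
    refine squeeze_zero (fun k => ?_) (fun k => ?_) h2
    · unfold nrm mean
      positivity
    · unfold nrm
      refine Real.rpow_le_rpow ?_ (mean_rpow_le k a) (by norm_num)
      unfold mean
      positivity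

end Pool.Agent.MBD
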