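import Mathlib

/-!
Disproof of the dimension-free Markov-Bernstein inequality for `p` near `1`: definitions.
-/

set_option autoImplicit false
open Finset

namespace Pool.Agent.MBD

variable {ι α X : Type}

/-- Mean over a finite type. -/
noncomputable def mean [Fintype X] (F : X → ℝ) : ℝ := (∑ x, F x) / Fintype.card X

/-- Normalised `L^p` norm on a finite type. -/
noncomputable def nrm [Fintype X] (p : ℝ) (F : X → ℝ) : ℝ := (mean fun x => |F x| ^ p) ^ (1 / p)

/-- Average over the letter `i`. -/
noncomputable def avg [DecidableEq ι] [Fintype α] (i : ι) (F : (ι → α) → ℝ) (x : ι → α) : ℝ :=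
  mean fun a => F (Function.update x i a)

/-- The Laplacian `∑_i (I - E_i)`. -/
noncomputable def lap [Fintype ι] [DecidableEq ι] [Fintype α] (F : (ι → α) → ℝ) (x : ι → α) : ℝ :=
  ∑ i, (F x - avg i F x)

/-- `G` depends only on the coordinates in `T`. -/
def Junta (T : Finset ι) (G : (ι → α) → ℝ) : Prop :=
  ∀ x y : ι → α, (∀ i ∈ T, x i = y i) → G x = G y

/-- Functions of degree at most `d`: sums of functions of at most `d` coordinates. -/
def DegLE (ι α : Type) (d : ℕ) : Submodule ℝ ((ι → α) → ℝ) :=
  Submodule.span ℝ {G | ∃ T : Finset ι, T.card ≤ d ∧ Junta T G}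

/-- Number of letters of `b` with property `P`. -/
def cnt {m : ℕ} (P : α → Prop) [DecidablePred P] (b : Fin m → α) : ℕ :=
  (univ.filter fun t => P (b t)).card

/-- The counts modulo `3` of the blocks. -/
def lam {m : ℕ} (P : α → Prop) [DecidablePred P] (x : ι × Fin m → α) (j : ι) : ZMod 3 :=
  (cnt P (fun t => x (j, t)) : ZMod 3)

/-- Indicator of the event: the count is `a` modulo `3`. -/
noncomputable def ind {m : ℕ} (P : α → Prop) [DecidablePred P] (a : ZMod 3) (b : Fin m → α) : ℝ :=
  if (cnt P b : ZMod 3) = a then 1 else 0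

/-- Block substitution. -/
noncomputable def sub {m : ℕ} [Fintype ι] [DecidableEq ι] (ψ : ZMod 3 → (Fin m → α) → ℝ)
    (f : (ι → ZMod 3) → ℝ) (x : ι × Fin m → α) : ℝ :=
  ∑ y : ι → ZMod 3, f y * ∏ j, ψ (y j) (fun t => x (j, t))

/-- Probability of `P`. -/
noncomputable def pr [Fintype α] (P : α → Prop) [DecidablePred P] : ℝ :=
  mean fun a => if P a then (1 : ℝ) else 0

/-- The drift term of the coordinate `j`. -/
noncomputable def drift [Fintype α] [DecidableEq ι] (P : α → Prop) [DecidablePred P]
    (f : (ι → ZMod 3) → ℝ) (j : ι) (y : ι → ZMod 3) : ℝ :=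
  (1 - pr P) * (f y - f (Function.update y j (y j - 1)))
    - pr P * (f y - f (Function.update y j (y j + 1)))

end Pool.Agent.MBD
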