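import Pool.Agent.MBD.Def

set_option autoImplicit false
open Finset

namespace Pool.Agent.MBD

variable {ι α X : Type}

lemma degLE_mono_B {d e : ℕ} (h : d ≤ e) : DegLE ι α d ≤ DegLE ι α e := by
  apply Submodule.span_mono
  rintro G ⟨T, hT, hG⟩
  exact ⟨T, hT.trans h, hG⟩

lemma one_mem_degLE_B (d : ℕ) : (1 : (ι → α) → ℝ) ∈ DegLE ι α d := by
  apply Submodule.subset_span
  exact ⟨∅, by simp, fun x y _ => rfl⟩

lemma mul_mem_degLE_B [DecidableEq ι] {a b : ℕ} {F G : (ι → α) → ℝ} (hF : F ∈ DegLE ι α a)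
    (hG : G ∈ DegLE ι α b) : F * G ∈ DegLE ι α (a + b) := by
  have h := Submodule.mul_mem_mul hF hG
  unfold DegLE at h
  rw [Submodule.span_mul_span] at h
  refine Submodule.span_mono ?_ h
  rintro H ⟨F', ⟨T, hT, hF'⟩, G', ⟨S, hS, hG'⟩, rfl⟩
  refine ⟨T ∪ S, (Finset.card_union_le T S).trans (add_le_add hT hS), ?_⟩
  intro x y hxy
  show F' x * G' x = F' y * G' y
  rw [hF' x y fun i hi => hxy i (Finset.mem_union_left _ hi),
    hG' x y fun i hi => hxy i (Finset.mem_union_right _ hi)]

lemma prod_mem_degLE_B [DecidableEq ι] {κ : Type} [DecidableEq κ] {D : ℕ}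
    (g : κ → (ι → α) → ℝ) (T : Finset κ)
    (hg : ∀ j ∈ T, g j ∈ DegLE ι α D) : ∏ j ∈ T, g j ∈ DegLE ι α (T.card * D) := by
  induction T using Finset.induction_on with
  | empty => simpa using one_mem_degLE_B (ι := ι) (α := α) 0
  | insert j T hj ih =>
    rw [Finset.prod_insert hj, Finset.card_insert_of_notMem hj]
    have h1 := mul_mem_degLE_B (hg j (Finset.mem_insert_self j T))
      (ih fun k hk => hg k (Finset.mem_insert_of_mem hk))
    have h2 : D + T.card * D = (T.card + 1) * D := by ring
    rwa [h2] at h1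

lemma pull_mem_degLE_B {m : ℕ} [DecidableEq ι] {D : ℕ} {φ : (Fin m → α) → ℝ}
    (hφ : φ ∈ DegLE (Fin m) α D) (j : ι) :
    (fun x : ι × Fin m → α => φ (fun t => x (j, t))) ∈ DegLE (ι × Fin m) α D := by
  let L : ((Fin m → α) → ℝ) →ₗ[ℝ] ((ι × Fin m → α) → ℝ) :=
    { toFun := fun φ x => φ (fun t => x (j, t))
      map_add' := fun _ _ => rfl
      map_smul' := fun _ _ => rfl }
  have h : DegLE (Fin m) α D ≤ (DegLE (ι × Fin m) α D).comap L := by
    unfold DegLE
    rw [Submodule.span_le]
    rintro G ⟨T, hT, hG⟩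
    show L G ∈ Submodule.span ℝ _
    apply Submodule.subset_span
    refine ⟨T.map ⟨fun t => (j, t), fun a b hab => (Prod.ext_iff.1 hab).2⟩, by simpa using hT, ?_⟩
    intro x y hxy
    apply hG
    intro t ht
    apply hxy
    rw [Finset.mem_map]
    exact ⟨t, ht, rfl⟩
  exact h hφ

/-- the substitution as a linear map -/
noncomputable def subL_B {m : ℕ} [Fintype ι] [DecidableEq ι] (ψ : ZMod 3 → (Fin m → α) → ℝ) :
    ((ι → ZMod 3) → ℝ) →ₗ[ℝ] ((ι × Fin m → α) → ℝ) where
  toFun := sub ψ
  map_add' f g := by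
    funext x
    show sub ψ (f + g) x = sub ψ f x + sub ψ g x
    unfold sub
    rw [← Finset.sum_add_distrib]
    apply Finset.sum_congr rfl
    intro y _
    rw [Pi.add_apply, add_mul]
  map_smul' c f := by
    funext x
    show sub ψ (c • f) x = c * sub ψ f x
    unfold sub
    rw [Finset.mul_sum]
    apply Finset.sum_congr rfl
    intro y _
    rw [Pi.smul_apply, smul_eq_mul, mul_assoc]

lemma sub_junta_B {m : ℕ} [Fintype ι] [DecidableEq ι] {ψ : ZMod 3 → (Fin m → α) → ℝ}
    (h1 : ∀ b, ∑ a, ψ a b = 1) {T : Finset ι} {G : (ι → ZMod 3) → ℝ} (hG : Junta T G)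
    (x : ι × Fin m → α) :
    sub ψ G x = ∑ z : ι → ZMod 3, (if ∀ j, j ∉ T → z j = 0 then G z else 0) *
      ∏ j ∈ T, ψ (z j) (fun t => x (j, t)) := by
  classical
  have key : ∀ y : ι → ZMod 3, G y = ∑ z : ι → ZMod 3,
      (if ∀ j, j ∉ T → z j = 0 then G z else 0) * ∏ j, (if j ∈ T then
        (if y j = z j then (1 : ℝ) else 0) else 1) := by
    intro y
    rw [Finset.sum_eq_single (fun j => if j ∈ T then y j else 0)]
    · have e1 : ∀ j, j ∉ T → (fun j => if j ∈ T then y j else 0) j = 0 := by
        intro j hj; simp [hj]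
      rw [if_pos e1]
      have e2 : ∏ j, (if j ∈ T then
          (if y j = (fun j => if j ∈ T then y j else 0) j then (1 : ℝ) else 0) else 1) = 1 := by
        apply Finset.prod_eq_one
        intro j _
        by_cases hj : j ∈ T <;> simp [hj]
      rw [e2, mul_one]
      apply hG
      intro i hi
      simp [hi]
    · intro z _ hz
      by_cases hz0 : ∀ j, j ∉ T → z j = 0
      · have : ∃ j ∈ T, y j ≠ z j := by
          by_contra hcon
          push Not at hcon
          apply hz
          funext j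
          by_cases hj : j ∈ T
          · simp [hj, hcon j hj]
          · simp [hj, hz0 j hj]
        obtain ⟨j, hj, hyz⟩ := this
        have e3 : ∏ j, (if j ∈ T then (if y j = z j then (1 : ℝ) else 0) else 1) = 0 := by
          apply Finset.prod_eq_zero (Finset.mem_univ j)
          simp [hj, hyz]
        rw [e3, mul_zero]
      · rw [if_neg hz0, zero_mul]
    · intro h; exact absurd (Finset.mem_univ _) h
  unfold sub
  calc ∑ y : ι → ZMod 3, G y * ∏ j, ψ (y j) (fun t => x (j, t))
      = ∑ y : ι → ZMod 3, ∑ z : ι → ZMod 3, (if ∀ j, j ∉ T → z j = 0 then G z else 0) *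
          ∏ j, ((if j ∈ T then (if y j = z j then (1 : ℝ) else 0) else 1) *
            ψ (y j) (fun t => x (j, t))) := by
        apply Finset.sum_congr rfl
        intro y _
        rw [key y, Finset.sum_mul]
        apply Finset.sum_congr rfl
        intro z _
        rw [Finset.prod_mul_distrib, mul_assoc]
    _ = ∑ z : ι → ZMod 3, (if ∀ j, j ∉ T → z j = 0 then G z else 0) *
          ∑ y : ι → ZMod 3, ∏ j, ((if j ∈ T then (if y j = z j then (1 : ℝ) else 0) else 1) *
            ψ (y j) (fun t => x (j, t))) := by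
        rw [Finset.sum_comm]
        apply Finset.sum_congr rfl
        intro z _
        rw [Finset.mul_sum]
    _ = _ := by
        apply Finset.sum_congr rfl
        intro z _
        congr 1
        have h2 := Finset.prod_univ_sum (fun _ : ι => (univ : Finset (ZMod 3)))
          (fun j a => (if j ∈ T then (if a = z j then (1 : ℝ) else 0) else 1) *
            ψ a (fun t => x (j, t)))
        rw [Fintype.piFinset_univ] at h2
        rw [← h2]
        have h3 : ∀ j, ∑ a, ((if j ∈ T then (if a = z j then (1 : ℝ) else 0) else 1) *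
            ψ a (fun t => x (j, t))) = if j ∈ T then ψ (z j) (fun t => x (j, t)) else 1 := by
          intro j
          by_cases hj : j ∈ T
          · simp [hj]
          · simp [hj, h1]
        simp_rw [h3]
        rw [Finset.prod_ite_mem, Finset.univ_inter]

lemma deg_sub {m : ℕ} [Fintype ι] [DecidableEq ι] {ψ : ZMod 3 → (Fin m → α) → ℝ} {D d : ℕ}
    (hψ : ∀ a, ψ a ∈ DegLE (Fin m) α D) (h1 : ∀ b, ∑ a, ψ a b = 1)
    {f : (ι → ZMod 3) → ℝ} (hf : f ∈ DegLE ι (ZMod 3) d) :
    sub ψ f ∈ DegLE (ι × Fin m) α (d * D) := by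
  have h : DegLE ι (ZMod 3) d ≤ (DegLE (ι × Fin m) α (d * D)).comap (subL_B ψ) := by
    conv_lhs => unfold DegLE
    rw [Submodule.span_le]
    rintro G ⟨T, hT, hG⟩
    show sub ψ G ∈ DegLE (ι × Fin m) α (d * D)
    have e : sub ψ G = ∑ z : ι → ZMod 3, (if ∀ j, j ∉ T → z j = 0 then G z else 0) •
        ∏ j ∈ T, (fun x : ι × Fin m → α => ψ (z j) (fun t => x (j, t))) := by
      funext x
      rw [sub_junta_B h1 hG, Finset.sum_apply]
      apply Finset.sum_congr rfl
      intro z _
      rw [Pi.smul_apply, smul_eq_mul, Finset.prod_apply]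
    rw [e]
    apply Submodule.sum_mem
    intro z _
    apply Submodule.smul_mem
    refine degLE_mono_B (Nat.mul_le_mul_right D hT) ?_
    exact prod_mem_degLE_B _ T fun j _ => pull_mem_degLE_B (hψ (z j)) j
  exact h hf

lemma sub_ind {m : ℕ} [Fintype ι] [DecidableEq ι] (P : α → Prop) [DecidablePred P]
    (f : (ι → ZMod 3) → ℝ) (x : ι × Fin m → α) : sub (ind P) f x = f (lam P x) := by
  unfold sub
  rw [Finset.sum_eq_single (lam P x)]
  · have e : ∏ j, ind P (lam P x j) (fun t => x (j, t)) = 1 := by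
      apply Finset.prod_eq_one
      intro j _
      unfold ind lam
      rw [if_pos rfl]
    rw [e, mul_one]
  · intro y _ hy
    have : ∃ j, lam P x j ≠ y j := by
      by_contra hcon
      push Not at hcon
      exact hy (funext fun j => (hcon j).symm)
    obtain ⟨j, hj⟩ := this
    have e : ∏ j, ind P (y j) (fun t => x (j, t)) = 0 := by
      apply Finset.prod_eq_zero (Finset.mem_univ j)
      unfold ind
      exact if_neg hj
    rw [e, mul_zero]
  · intro h; exact absurd (Finset.mem_univ _) h

end Pool.Agent.MBD
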