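import Pool.Agent.MBD.Def

set_option autoImplicit false
open Finset

namespace Pool.Agent.MBD

variable {ι α X : Type}

lemma cnt_eq_sum_D {m : ℕ} (P : α → Prop) [DecidablePred P] (b : Fin m → α) :
    cnt P b = ∑ t, if P (b t) then 1 else 0 := by
  unfold cnt
  rw [Finset.card_filter]

lemma cnt_update_D {m : ℕ} (P : α → Prop) [DecidablePred P] (b : Fin m → α) (t : Fin m) (a : α) :
    cnt P (Function.update b t a) + (if P (b t) then 1 else 0) =
      cnt P b + (if P a then 1 else 0) := by
  classical
  rw [cnt_eq_sum_D, cnt_eq_sum_D, ← Finset.add_sum_erase univ _ (Finset.mem_univ t),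
    ← Finset.add_sum_erase univ (fun t => if P (b t) then 1 else 0) (Finset.mem_univ t)]
  have h : ∑ x ∈ univ.erase t, (if P (Function.update b t a x) then 1 else 0) =
      ∑ x ∈ univ.erase t, (if P (b x) then 1 else 0) := by
    apply Finset.sum_congr rfl
    intro x hx
    rw [Function.update_of_ne (Finset.ne_of_mem_erase hx)]
  rw [h, Function.update_self]
  omega

lemma lam_update_D {m : ℕ} [DecidableEq ι] (P : α → Prop) [DecidablePred P]
    (x : ι × Fin m → α) (j : ι) (t : Fin m) (a : α) :
    lam P (Function.update x (j, t) a) =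
      Function.update (lam P x) j
        (lam P x j - (if P (x (j, t)) then 1 else 0) + (if P a then 1 else 0)) := by
  classical
  funext j'
  by_cases hj : j' = j
  · subst hj
    rw [Function.update_self]
    have h1 : (fun t' => Function.update x (j', t) a (j', t')) =
        Function.update (fun t' => x (j', t')) t a := by
      funext t'
      by_cases ht : t' = t
      · subst ht; simp
      · rw [Function.update_of_ne ht, Function.update_of_ne]
        intro h; exact ht (Prod.ext_iff.1 h).2
    have h2 := cnt_update_D P (fun t' => x (j', t')) t a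
    unfold lam
    rw [h1]
    have h3 : ((cnt P (Function.update (fun t' => x (j', t')) t a) : ℕ) : ZMod 3) +
        (if P (x (j', t)) then 1 else 0) =
        ((cnt P (fun t' => x (j', t')) : ℕ) : ZMod 3) + (if P a then 1 else 0) := by
      have := congrArg (fun n : ℕ => (n : ZMod 3)) h2
      simpa using this
    rw [eq_comm, sub_add_eq_add_sub, sub_eq_iff_eq_add]
    exact h3.symm
  · rw [Function.update_of_ne hj]
    unfold lam
    congr 2
    funext t'
    rw [Function.update_of_ne]
    intro h; exact hj (Prod.ext_iff.1 h).1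

lemma mean_ite_D [Fintype α] [Nonempty α] (P : α → Prop) [DecidablePred P] (u v : ℝ) :
    mean (fun a => if P a then u else v) = pr P * u + (1 - pr P) * v := by
  have hc : (Fintype.card α : ℝ) ≠ 0 := by
    exact_mod_cast Fintype.card_ne_zero
  have h : ∀ a, (if P a then u else v) = (if P a then (1 : ℝ) else 0) * u +
      (1 - (if P a then (1 : ℝ) else 0)) * v := by
    intro a; split_ifs <;> ring
  unfold pr mean
  simp_rw [h]
  rw [Finset.sum_add_distrib, ← Finset.sum_mul, ← Finset.sum_mul, Finset.sum_sub_distrib]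
  simp only [Finset.sum_const, Finset.card_univ, nsmul_eq_mul, mul_one]
  field_simp

lemma term_D {m : ℕ} [DecidableEq ι] [Fintype α] [Nonempty α] (P : α → Prop)
    [DecidablePred P] (f : (ι → ZMod 3) → ℝ) (x : ι × Fin m → α) (j : ι) (t : Fin m) :
    f (lam P x) - avg (j, t) (fun x : ι × Fin m → α => f (lam P x)) x =
      (if P (x (j, t)) then (1 : ℝ) else 0) *
        ((1 - pr P) * (f (lam P x) - f (Function.update (lam P x) j (lam P x j - 1)))) +
      (1 - (if P (x (j, t)) then (1 : ℝ) else 0)) *
        (pr P * (f (lam P x) - f (Function.update (lam P x) j (lam P x j + 1)))) := by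
  unfold avg
  simp_rw [lam_update_D]
  by_cases hP : P (x (j, t))
  · simp only [hP, if_true]
    have h : ∀ a, f (Function.update (lam P x) j (lam P x j - 1 + (if P a then 1 else 0))) =
        if P a then f (lam P x) else f (Function.update (lam P x) j (lam P x j - 1)) := by
      intro a
      split_ifs
      · rw [sub_add_cancel, Function.update_eq_self]
      · rw [add_zero]
    simp_rw [h]
    rw [mean_ite_D]
    ring
  · simp only [hP, if_false]
    have h : ∀ a, f (Function.update (lam P x) j (lam P x j - 0 + (if P a then 1 else 0))) =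
        if P a then f (Function.update (lam P x) j (lam P x j + 1)) else f (lam P x) := by
      intro a
      split_ifs
      · rw [sub_zero]
      · rw [sub_zero, add_zero, Function.update_eq_self]
    simp_rw [h]
    rw [mean_ite_D]
    ring

lemma mean_zmod3_D (g : ZMod 3 → ℝ) (y : ZMod 3) : mean g = (g y + g (y - 1) + g (y + 1)) / 3 := by
  unfold mean
  have hc : Fintype.card (ZMod 3) = 3 := ZMod.card 3
  rw [hc]
  have h : ∑ a, g a = g y + g (y - 1) + g (y + 1) := by
    have h3 : ∑ a : ZMod 3, g a = g 0 + g 1 + g 2 := by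
      exact Fin.sum_univ_three g
    rw [h3]
    fin_cases y
    · show g 0 + g 1 + g 2 = g 0 + g (0 - 1) + g (0 + 1)
      have e1 : (0 - 1 : ZMod 3) = 2 := by decide
      have e2 : (0 + 1 : ZMod 3) = 1 := by decide
      rw [e1, e2]; ring
    · show g 0 + g 1 + g 2 = g 1 + g (1 - 1) + g (1 + 1)
      have e1 : (1 - 1 : ZMod 3) = 0 := by decide
      have e2 : (1 + 1 : ZMod 3) = 2 := by decide
      rw [e1, e2]; ring
    · show g 0 + g 1 + g 2 = g 2 + g (2 - 1) + g (2 + 1)
      have e1 : (2 - 1 : ZMod 3) = 1 := by decide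
      have e2 : (2 + 1 : ZMod 3) = 0 := by decide
      rw [e1, e2]; ring
  rw [h]
  norm_num

lemma lap_pull {m : ℕ} [Fintype ι] [DecidableEq ι] [Fintype α] [Nonempty α] (P : α → Prop)
    [DecidablePred P] (f : (ι → ZMod 3) → ℝ) (x : ι × Fin m → α) :
    lap (fun x : ι × Fin m → α => f (lam P x)) x =
      3 * pr P * (1 - pr P) * m * lap f (lam P x) +
        ∑ j, ((cnt P (fun t => x (j, t)) : ℝ) - pr P * m) * drift P f j (lam P x) := by
  have hL : lap (fun x : ι × Fin m → α => f (lam P x)) x =
      ∑ j, ((cnt P (fun t => x (j, t)) : ℝ) *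
        ((1 - pr P) * (f (lam P x) - f (Function.update (lam P x) j (lam P x j - 1)))) +
        ((m : ℝ) - cnt P (fun t => x (j, t))) *
        (pr P * (f (lam P x) - f (Function.update (lam P x) j (lam P x j + 1))))) := by
    unfold lap
    rw [Fintype.sum_prod_type]
    apply Finset.sum_congr rfl
    intro j _
    have h1 : ∀ t ∈ (univ : Finset (Fin m)), (f (lam P x) -
        avg (j, t) (fun x : ι × Fin m → α => f (lam P x)) x) = _ := fun t _ => term_D P f x j t
    rw [Finset.sum_congr rfl h1, Finset.sum_add_distrib, ← Finset.sum_mul, ← Finset.sum_mul,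
      Finset.sum_sub_distrib]
    have h2 : ∑ t : Fin m, (if P (x (j, t)) then (1 : ℝ) else 0) =
        (cnt P (fun t => x (j, t)) : ℝ) := by
      rw [cnt_eq_sum_D]; push_cast; rfl
    rw [h2]
    simp
  rw [hL]
  unfold lap
  rw [Finset.mul_sum, ← Finset.sum_add_distrib]
  apply Finset.sum_congr rfl
  intro j _
  have h3 : avg j f (lam P x) = (f (lam P x) +
      f (Function.update (lam P x) j (lam P x j - 1)) +
      f (Function.update (lam P x) j (lam P x j + 1))) / 3 := by
    unfold avg
    rw [mean_zmod3_D (fun a => f (Function.update (lam P x) j a)) (lam P x j)]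
    simp only [Function.update_eq_self]
  rw [h3]
  unfold drift
  ring

lemma sum_two_D [Fintype ι] [DecidableEq ι] [Fintype α] (i i' : ι) (h : i ≠ i') (u : α → ℝ)
    (hu : ∑ a, u a = 0) : ∑ x : ι → α, u (x i) * u (x i') = 0 := by
  classical
  have h1 : ∀ x : ι → α, u (x i) * u (x i') =
      ∏ k, (if k = i then u (x k) else if k = i' then u (x k) else 1) := by
    intro x
    rw [Finset.prod_eq_mul i i' h]
    · simp [h.symm]
    · intro c _ hc
      simp [hc.1, hc.2]
    · intro hh; exact absurd (Finset.mem_univ _) hh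
    · intro hh; exact absurd (Finset.mem_univ _) hh
  simp_rw [h1]
  have h2 := Finset.prod_univ_sum (fun _ : ι => (univ : Finset α))
    (fun k a => if k = i then u a else if k = i' then u a else (1 : ℝ))
  rw [Fintype.piFinset_univ] at h2
  rw [← h2]
  apply Finset.prod_eq_zero (Finset.mem_univ i)
  simpa using hu

lemma pr_nonneg_D [Fintype α] (P : α → Prop) [DecidablePred P] : 0 ≤ pr P := by
  unfold pr mean
  apply div_nonneg
  · apply Finset.sum_nonneg; intro a _; split_ifs <;> norm_num
  · positivity

lemma pr_le_one_D [Fintype α] (P : α → Prop) [DecidablePred P] : pr P ≤ 1 := by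
  unfold pr mean
  apply div_le_one_of_le₀
  · calc ∑ a, (if P a then (1 : ℝ) else 0) ≤ ∑ a : α, (1 : ℝ) := by
          apply Finset.sum_le_sum; intro a _; split_ifs <;> norm_num
      _ = Fintype.card α := by simp
  · positivity

lemma sum_sq_D {m : ℕ} [Fintype ι] [DecidableEq ι] [Fintype α] [Nonempty α] (P : α → Prop)
    [DecidablePred P] (j : ι) :
    ∑ x : ι × Fin m → α, ((cnt P (fun t => x (j, t)) : ℝ) - pr P * m) ^ 2 ≤
      m * (Fintype.card (ι × Fin m → α) : ℝ) := by
  classical
  set u : α → ℝ := fun a => (if P a then (1 : ℝ) else 0) - pr P with hu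
  have hu0 : ∑ a, u a = 0 := by
    rw [hu, Finset.sum_sub_distrib]
    simp only [Finset.sum_const, Finset.card_univ, nsmul_eq_mul]
    unfold pr mean
    have hc : (Fintype.card α : ℝ) ≠ 0 := by exact_mod_cast Fintype.card_ne_zero
    field_simp
    ring
  have hu1 : ∀ a, u a * u a ≤ 1 := by
    intro a
    have h0 := pr_nonneg_D P
    have h1 := pr_le_one_D P
    rw [hu]
    dsimp only
    split_ifs <;> nlinarith
  have h1 : ∀ x : ι × Fin m → α, ((cnt P (fun t => x (j, t)) : ℝ) - pr P * m) ^ 2 =
      ∑ t : Fin m, ∑ t' : Fin m, u (x (j, t)) * u (x (j, t')) := by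
    intro x
    have h2 : (cnt P (fun t => x (j, t)) : ℝ) - pr P * m = ∑ t : Fin m, u (x (j, t)) := by
      rw [cnt_eq_sum_D, hu, Finset.sum_sub_distrib]
      push_cast
      simp [mul_comm]
    rw [h2, sq, Finset.sum_mul_sum]
  simp_rw [h1]
  rw [Finset.sum_comm]
  have h3 : ∀ t ∈ (univ : Finset (Fin m)), ∑ x : ι × Fin m → α, ∑ t' : Fin m,
      u (x (j, t)) * u (x (j, t')) ≤ (Fintype.card (ι × Fin m → α) : ℝ) := by
    intro t _
    rw [Finset.sum_comm, Finset.sum_eq_single t]
    · calc ∑ x : ι × Fin m → α, u (x (j, t)) * u (x (j, t)) ≤ ∑ x : ι × Fin m → α, (1 : ℝ) :=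
            Finset.sum_le_sum fun x _ => hu1 _
        _ = _ := by simp
    · intro t' _ ht'
      apply sum_two_D (j, t) (j, t') _ u hu0
      intro h; exact ht' (Prod.ext_iff.1 h).2.symm
    · intro hh; exact absurd (Finset.mem_univ _) hh
  calc _ ≤ ∑ t : Fin m, (Fintype.card (ι × Fin m → α) : ℝ) := Finset.sum_le_sum h3
    _ = _ := by simp

lemma nrm_cnt_le {m : ℕ} [Fintype ι] [DecidableEq ι] [Fintype α] [Nonempty α] (P : α → Prop)
    [DecidablePred P] {p : ℝ} (hp : 1 ≤ p) (hp2 : p ≤ 2) (j : ι) :
    nrm p (fun x : ι × Fin m → α => (cnt P (fun t => x (j, t)) : ℝ) - pr P * m) ≤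
      (1 + m) ^ (1 / p) := by
  unfold nrm
  have hp0 : 0 < p := by linarith
  have hc : (0 : ℝ) < Fintype.card (ι × Fin m → α) := by exact_mod_cast Fintype.card_pos
  apply Real.rpow_le_rpow
  · unfold mean
    apply div_nonneg
    · apply Finset.sum_nonneg; intro x _; positivity
    · positivity
  · unfold mean
    rw [div_le_iff₀ hc]
    have h1 : ∀ c : ℝ, |c| ^ p ≤ 1 + c ^ 2 := by
      intro c
      rcases le_total (|c|) 1 with h | h
      · have := Real.rpow_le_one (abs_nonneg c) h hp0.le
        nlinarith [sq_nonneg c]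
      · have h2 := Real.rpow_le_rpow_of_exponent_le h hp2
        rw [Real.rpow_two, sq_abs] at h2
        linarith
    calc ∑ x : ι × Fin m → α, |(cnt P (fun t => x (j, t)) : ℝ) - pr P * m| ^ p
        ≤ ∑ x : ι × Fin m → α, (1 + ((cnt P (fun t => x (j, t)) : ℝ) - pr P * m) ^ 2) :=
          Finset.sum_le_sum fun x _ => h1 _
      _ = (Fintype.card (ι × Fin m → α) : ℝ) +
          ∑ x : ι × Fin m → α, ((cnt P (fun t => x (j, t)) : ℝ) - pr P * m) ^ 2 := by
          rw [Finset.sum_add_distrib]; simp
      _ ≤ (Fintype.card (ι × Fin m → α) : ℝ) + m * (Fintype.card (ι × Fin m → α) : ℝ) := by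
          have := sum_sq_D (m := m) P j
          linarith
      _ = _ := by ring
  · positivity

end Pool.Agent.MBD
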