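import Pool.Agent.MBD.Def

set_option autoImplicit false
open Finset Filter Topology

namespace Pool.Agent.MBD

namespace RowE

variable {ι α : Type}

lemma prod_ind {m : ℕ} [Fintype ι] [DecidableEq ι] (P : α → Prop) [DecidablePred P]
    (G : (ι → ZMod 3) → ℝ) (x : ι × Fin m → α) :
    G (lam P x) = ∑ y : ι → ZMod 3, G y * ∏ j, ind P (y j) (fun t => x (j, t)) := by
  classical
  rw [Finset.sum_eq_single (lam P x)]
  · have : ∏ j, ind P (lam P x j) (fun t => x (j, t)) = 1 := by
      apply Finset.prod_eq_one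
      intro j _
      simp [ind, lam]
    rw [this, mul_one]
  · intro y _ hy
    obtain ⟨j, hj⟩ := Function.ne_iff.1 hy
    have : ∏ j, ind P (y j) (fun t => x (j, t)) = 0 := by
      apply Finset.prod_eq_zero (Finset.mem_univ j)
      unfold ind
      rw [if_neg]
      intro h
      exact hj h.symm
    rw [this, mul_zero]
  · intro h
    exact absurd (Finset.mem_univ _) h

/-- the law of the count of one block -/
noncomputable def q [Fintype α] (P : α → Prop) [DecidablePred P] (m : ℕ) (a : ZMod 3) : ℝ :=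
  mean fun b : Fin m → α => ind P a b

lemma mean_lam [Fintype ι] [DecidableEq ι] [Fintype α] (P : α → Prop)
    [DecidablePred P] (G : (ι → ZMod 3) → ℝ) (m : ℕ) :
    (mean fun x : ι × Fin m → α => G (lam P x)) =
      ∑ y : ι → ZMod 3, G y * ∏ j, q P m (y j) := by
  classical
  unfold mean
  have h1 : ∑ x : ι × Fin m → α, G (lam P x) =
      ∑ y : ι → ZMod 3, G y * ∏ j, ∑ b : Fin m → α, ind P (y j) b := by
    simp_rw [prod_ind P G]
    rw [Finset.sum_comm]
    apply Finset.sum_congr rfl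
    intro y _
    rw [← Finset.mul_sum, Finset.prod_univ_sum, Fintype.piFinset_univ]
    congr 1
    exact Fintype.sum_equiv (Equiv.curry ι (Fin m) α) _ _ (fun x => rfl)
  have h2 : (Fintype.card (ι × Fin m → α) : ℝ) =
      ∏ _j : ι, (Fintype.card (Fin m → α) : ℝ) := by
    rw [Fintype.card_congr (Equiv.curry ι (Fin m) α), Fintype.card_fun]
    simp
  rw [h1, h2, Finset.sum_div]
  apply Finset.sum_congr rfl
  intro y _
  rw [mul_div_assoc, ← Finset.prod_div_distrib]
  rfl

lemma cnt_cons {m : ℕ} (P : α → Prop) [DecidablePred P] (t : α) (b : Fin m → α) :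
    cnt P (Fin.cons t b : Fin (m + 1) → α) = (if P t then 1 else 0) + cnt P b := by
  classical
  unfold cnt
  rw [Finset.card_filter, Finset.card_filter, Fin.sum_univ_succ]
  simp

lemma q_succ [Fintype α] [Nonempty α] (P : α → Prop) [DecidablePred P] (m : ℕ) (a : ZMod 3) :
    q P (m + 1) a = pr P * q P m (a - 1) + (1 - pr P) * q P m a := by
  classical
  have h1 : ∑ b : Fin (m + 1) → α, ind P a b =
      ∑ t : α, ∑ b : Fin m → α, ind P a (Fin.cons t b : Fin (m + 1) → α) := by
    rw [← Fintype.sum_prod_type']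
    exact (Fintype.sum_equiv (Fin.consEquiv (fun _ : Fin (m + 1) => α)) _ _ (fun x => rfl)).symm
  have h2 : ∀ t : α, ∀ b : Fin m → α, ind P a (Fin.cons t b : Fin (m + 1) → α) =
      (if P t then (1 : ℝ) else 0) * ind P (a - 1) b +
        (1 - (if P t then (1 : ℝ) else 0)) * ind P a b := by
    intro t b
    unfold ind
    rw [cnt_cons]
    by_cases hP : P t
    · simp only [hP, if_true, one_mul, sub_self, zero_mul, add_zero, Nat.cast_add, Nat.cast_one]
      have : ((1 : ZMod 3) + (cnt P b : ZMod 3) = a) ↔ ((cnt P b : ZMod 3) = a - 1) := by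
        constructor
        · intro h; rw [← h]; ring
        · intro h; rw [h]; ring
      simp only [this]
    · simp [hP]
  have hc : (Fintype.card α : ℝ) ≠ 0 := by
    have := Fintype.card_pos (α := α)
    positivity
  unfold q pr mean
  rw [h1]
  simp_rw [h2]
  have h3 : (Fintype.card (Fin (m + 1) → α) : ℝ) = Fintype.card α * Fintype.card (Fin m → α) := by
    simp [pow_succ, mul_comm]
  rw [h3]
  have hd : (Fintype.card (Fin m → α) : ℝ) ≠ 0 := by
    have := Fintype.card_pos (α := Fin m → α)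
    positivity
  have h4 : ∑ t : α, ∑ b : Fin m → α, ((if P t then (1 : ℝ) else 0) * ind P (a - 1) b +
      (1 - (if P t then (1 : ℝ) else 0)) * ind P a b) =
      (∑ t : α, (if P t then (1 : ℝ) else 0)) * (∑ b : Fin m → α, ind P (a - 1) b) +
      (Fintype.card α - ∑ t : α, (if P t then (1 : ℝ) else 0)) * ∑ b : Fin m → α, ind P a b := by
    simp_rw [Finset.sum_add_distrib, ← Finset.mul_sum, ← Finset.sum_mul, Finset.sum_sub_distrib]
    simp
  rw [h4]
  field_simp

lemma q_zero [Fintype α] (P : α → Prop) [DecidablePred P] (a : ZMod 3) :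
    q P 0 a = if a = 0 then 1 else 0 := by
  unfold q mean ind cnt
  simp only [Finset.univ_eq_empty, Finset.filter_empty, Finset.card_empty, Nat.cast_zero]
  simp [eq_comm]

lemma sum3 (f : ZMod 3 → ℝ) : ∑ a, f a = f 0 + f 1 + f 2 := Fin.sum_univ_three f

lemma q_sum [Fintype α] [Nonempty α] (P : α → Prop) [DecidablePred P] (m : ℕ) :
    q P m 0 + q P m 1 + q P m 2 = 1 := by
  induction m with
  | zero =>
    rw [q_zero, q_zero, q_zero]
    have h1 : (1 : ZMod 3) ≠ 0 := by decide
    have h2 : (2 : ZMod 3) ≠ 0 := by decide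
    simp [h1, h2]
  | succ m ih =>
    rw [q_succ, q_succ, q_succ]
    have e0 : (0 : ZMod 3) - 1 = 2 := by decide
    have e1 : (1 : ZMod 3) - 1 = 0 := by decide
    have e2 : (2 : ZMod 3) - 1 = 1 := by decide
    rw [e0, e1, e2]
    linear_combination ih

lemma q_sq [Fintype α] [Nonempty α] (P : α → Prop) [DecidablePred P] (m : ℕ) :
    (q P m 0 - 1 / 3) ^ 2 + (q P m 1 - 1 / 3) ^ 2 + (q P m 2 - 1 / 3) ^ 2 =
      (1 - 3 * (pr P * (1 - pr P))) ^ m * (2 / 3) := by
  induction m with
  | zero =>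
    rw [q_zero, q_zero, q_zero]
    have h1 : (1 : ZMod 3) ≠ 0 := by decide
    have h2 : (2 : ZMod 3) ≠ 0 := by decide
    simp [h1, h2]
    norm_num
  | succ m ih =>
    rw [q_succ, q_succ, q_succ]
    have e0 : (0 : ZMod 3) - 1 = 2 := by decide
    have e1 : (1 : ZMod 3) - 1 = 0 := by decide
    have e2 : (2 : ZMod 3) - 1 = 1 := by decide
    rw [e0, e1, e2, pow_succ]
    have hs := q_sum P m
    have h2 : q P m 2 = 1 - q P m 0 - q P m 1 := by linarith
    rw [h2] at ih ⊢
    linear_combination (1 - 3 * (pr P * (1 - pr P))) * ih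

lemma q_tendsto [Fintype α] [Nonempty α] (P : α → Prop) [DecidablePred P] (h0 : 0 < pr P)
    (h1 : pr P < 1) (a : ZMod 3) : Tendsto (fun m => q P m a) atTop (𝓝 (1 / 3)) := by
  have hp : 0 < pr P * (1 - pr P) := mul_pos h0 (by linarith)
  have hp' : pr P * (1 - pr P) ≤ 1 / 4 := by nlinarith [sq_nonneg (pr P - 1 / 2)]
  have hr : Tendsto (fun m => (1 - 3 * (pr P * (1 - pr P))) ^ m * (2 / 3)) atTop (𝓝 0) := by
    have := (tendsto_pow_atTop_nhds_zero_of_lt_one (r := 1 - 3 * (pr P * (1 - pr P)))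
      (by linarith) (by linarith)).mul_const (2 / 3 : ℝ)
    simpa using this
  have hsq : Tendsto (fun m => (q P m a - 1 / 3) ^ 2) atTop (𝓝 0) := by
    refine squeeze_zero (fun m => sq_nonneg _) (fun m => ?_) hr
    rw [← q_sq P m]
    fin_cases a
    · show (q P m 0 - 1 / 3) ^ 2 ≤ _
      nlinarith [sq_nonneg (q P m 1 - 1 / 3), sq_nonneg (q P m 2 - 1 / 3)]
    · show (q P m 1 - 1 / 3) ^ 2 ≤ _
      nlinarith [sq_nonneg (q P m 0 - 1 / 3), sq_nonneg (q P m 2 - 1 / 3)]
    · show (q P m 2 - 1 / 3) ^ 2 ≤ _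
      nlinarith [sq_nonneg (q P m 0 - 1 / 3), sq_nonneg (q P m 1 - 1 / 3)]
  have habs : Tendsto (fun m => |q P m a - 1 / 3|) atTop (𝓝 0) := by
    have := hsq.sqrt
    rw [Real.sqrt_zero] at this
    refine this.congr (fun m => ?_)
    rw [Real.sqrt_sq_eq_abs]
  have h2 := (tendsto_zero_iff_abs_tendsto_zero _).2 habs
  have h3 := h2.add_const (1 / 3 : ℝ)
  simpa using h3

end RowE

open RowE in
lemma mean_lam_tendsto {ι α : Type} [Fintype ι] [DecidableEq ι] [Fintype α] [Nonempty α]
    (P : α → Prop) [DecidablePred P] (h0 : 0 < pr P) (h1 : pr P < 1) (G : (ι → ZMod 3) → ℝ) :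
    Tendsto (fun m : ℕ => mean fun x : ι × Fin m → α => G (lam P x)) atTop (𝓝 (mean G)) := by
  simp_rw [mean_lam P G]
  have h2 : mean G = ∑ y : ι → ZMod 3, G y * ∏ _j : ι, (1 / 3 : ℝ) := by
    unfold mean
    rw [Finset.sum_div]
    apply Finset.sum_congr rfl
    intro y _
    rw [Finset.prod_const, Finset.card_univ, Fintype.card_fun, ZMod.card]
    push_cast
    rw [one_div, inv_pow, div_eq_mul_inv]
  rw [h2]
  refine tendsto_finsetSum _ (fun y _ => ?_)
  refine Tendsto.const_mul _ ?_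
  exact tendsto_finsetProd _ (fun j _ => q_tendsto P h0 h1 (y j))

end Pool.Agent.MBD
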