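import Pool.Agent.MBD.Def

/-! Row A, copy of helper77: norms. -/

set_option autoImplicit false
open Finset Filter Topology

namespace Pool.Agent.MBD

variable {ι α X : Type}

lemma mean_rpow_nonneg [Fintype X] {p : ℝ} (F : X → ℝ) : 0 ≤ mean fun x => |F x| ^ p := by
  unfold mean
  positivity

lemma nrm_nonneg [Fintype X] {p : ℝ} (F : X → ℝ) : 0 ≤ nrm p F :=
  Real.rpow_nonneg (mean_rpow_nonneg F) _

lemma nrm_eq_div [Fintype X] {p : ℝ} (F : X → ℝ) :
    nrm p F = (∑ x, |F x| ^ p) ^ (1 / p) / (Fintype.card X : ℝ) ^ (1 / p) := by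
  unfold nrm mean
  rw [Real.div_rpow (by positivity) (by positivity)]

lemma nrm_add_le [Fintype X] {p : ℝ} (hp : 1 ≤ p) (F G : X → ℝ) :
    nrm p (fun x => F x + G x) ≤ nrm p F + nrm p G := by
  rw [nrm_eq_div, nrm_eq_div, nrm_eq_div, ← add_div]
  have h := Real.Lp_add_le (Finset.univ : Finset X) F G hp
  gcongr

lemma nrm_zero' [Fintype X] {p : ℝ} (hp : 1 ≤ p) : nrm p (fun _ : X => (0 : ℝ)) = 0 := by
  unfold nrm mean
  have h0 : p ≠ 0 := by linarith
  have h1 : p⁻¹ ≠ 0 := inv_ne_zero h0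
  simp [Real.zero_rpow h0, Real.zero_rpow h1]

lemma nrm_sum_le [Fintype X] {p : ℝ} (hp : 1 ≤ p) {κ : Type} (s : Finset κ) (F : κ → X → ℝ) :
    nrm p (fun x => ∑ k ∈ s, F k x) ≤ ∑ k ∈ s, nrm p (F k) := by
  classical
  induction s using Finset.induction_on with
  | empty => simp [nrm_zero' hp]
  | insert a s ha ih =>
    simp only [Finset.sum_insert ha]
    exact (nrm_add_le hp _ _).trans (by gcongr)

lemma nrm_mul_const [Fintype X] {p : ℝ} (hp : 1 ≤ p) (c : ℝ) (F : X → ℝ) :
    nrm p (fun x => c * F x) = |c| * nrm p F := by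
  have h0 : p ≠ 0 := by linarith
  have h1 : (mean fun x => |c * F x| ^ p) = |c| ^ p * mean fun x => |F x| ^ p := by
    unfold mean
    rw [← mul_div_assoc, Finset.mul_sum]
    congr 1
    refine Finset.sum_congr rfl ?_
    intro x _
    show |c * F x| ^ p = |c| ^ p * |F x| ^ p
    rw [abs_mul, Real.mul_rpow (abs_nonneg _) (abs_nonneg _)]
  unfold nrm
  rw [h1, Real.mul_rpow (by positivity) (mean_rpow_nonneg F), ← Real.rpow_mul (abs_nonneg c),
    mul_one_div_cancel h0, Real.rpow_one]

lemma nrm_mono [Fintype X] {p : ℝ} (hp : 1 ≤ p) {F G : X → ℝ} (h : ∀ x, |F x| ≤ |G x|) :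
    nrm p F ≤ nrm p G := by
  have h0 : 0 ≤ p := by linarith
  unfold nrm
  refine Real.rpow_le_rpow (mean_rpow_nonneg F) ?_ (by positivity)
  unfold mean
  have h1 : ∑ x, |F x| ^ p ≤ ∑ x, |G x| ^ p :=
    Finset.sum_le_sum (fun x _ => Real.rpow_le_rpow (abs_nonneg _) (h x) h0)
  gcongr

lemma sum_update_le [Fintype ι] [DecidableEq ι] [Fintype α] (i : ι) (a : α) (h : (ι → α) → ℝ)
    (hh : ∀ x, 0 ≤ h x) :
    ∑ x, h (Function.update x i a) ≤ Fintype.card α * ∑ x, h x := by
  classical
  have hinj : Function.Injective (fun x : ι → α => (Function.update x i a, x i)) := by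
    intro x y hxy
    simp only [Prod.mk.injEq] at hxy
    funext j
    by_cases hj : j = i
    · subst hj; exact hxy.2
    · have := congrFun hxy.1 j
      simpa [Function.update_of_ne hj] using this
  have h1 : ∑ x, h (Function.update x i a) =
      ∑ z ∈ (Finset.univ : Finset (ι → α)).map ⟨_, hinj⟩, h z.1 := by
    rw [Finset.sum_map]
    rfl
  rw [h1]
  refine (Finset.sum_le_sum_of_subset_of_nonneg (Finset.subset_univ _)
    (fun z _ _ => hh z.1)).trans ?_
  rw [Fintype.sum_prod_type]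
  simp only [Finset.sum_const, Finset.card_univ, nsmul_eq_mul]
  rw [← Finset.mul_sum]

lemma nrm_update_le [Fintype ι] [DecidableEq ι] [Fintype α] [Nonempty α] {p : ℝ} (hp : 1 ≤ p)
    (i : ι) (a : α) (F : (ι → α) → ℝ) :
    nrm p (fun x => F (Function.update x i a)) ≤ Fintype.card α * nrm p F := by
  have h0 : p ≠ 0 := by linarith
  have hc1 : (1 : ℝ) ≤ Fintype.card α := by exact_mod_cast Fintype.card_pos
  have h1 : (mean fun x => |F (Function.update x i a)| ^ p) ≤
      (Fintype.card α : ℝ) ^ p * mean fun x => |F x| ^ p := by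
    have h2 := sum_update_le i a (fun x => |F x| ^ p) (fun x => by positivity)
    have h3 : (Fintype.card α : ℝ) ≤ (Fintype.card α : ℝ) ^ p := by
      calc (Fintype.card α : ℝ) = (Fintype.card α : ℝ) ^ (1 : ℝ) := (Real.rpow_one _).symm
        _ ≤ _ := Real.rpow_le_rpow_of_exponent_le hc1 hp
    unfold mean
    rw [← mul_div_assoc]
    have h4 : ∑ x, |F (Function.update x i a)| ^ p ≤ (Fintype.card α : ℝ) ^ p * ∑ x, |F x| ^ p :=
      h2.trans (by gcongr)
    gcongr
  unfold nrm
  refine (Real.rpow_le_rpow (mean_rpow_nonneg _) h1 (by positivity)).trans ?_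
  rw [Real.mul_rpow (by positivity) (mean_rpow_nonneg F), ← Real.rpow_mul (by positivity),
    mul_one_div_cancel h0, Real.rpow_one]

lemma nrm_avg_le [Fintype ι] [DecidableEq ι] [Fintype α] [Nonempty α] {p : ℝ} (hp : 1 ≤ p)
    (i : ι) (F : (ι → α) → ℝ) : nrm p (avg i F) ≤ Fintype.card α * nrm p F := by
  have hc : (0 : ℝ) < Fintype.card α := by exact_mod_cast Fintype.card_pos
  have h1 : avg i F = fun x => (1 / (Fintype.card α : ℝ)) * ∑ a : α, F (Function.update x i a) := by
    funext x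
    unfold avg mean
    ring
  rw [h1, nrm_mul_const hp]
  have h2 := nrm_sum_le hp (Finset.univ : Finset α) (fun a x => F (Function.update x i a))
  have h3 : ∑ a : α, nrm p (fun x => F (Function.update x i a)) ≤
      ∑ _a : α, (Fintype.card α : ℝ) * nrm p F :=
    Finset.sum_le_sum (fun a _ => nrm_update_le hp i a F)
  rw [Finset.sum_const, Finset.card_univ, nsmul_eq_mul] at h3
  rw [abs_of_pos (by positivity)]
  calc 1 / (Fintype.card α : ℝ) * nrm p (fun x => ∑ a : α, F (Function.update x i a))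
      ≤ 1 / (Fintype.card α : ℝ) * ((Fintype.card α : ℝ) * ((Fintype.card α : ℝ) * nrm p F)) := by
        gcongr
        exact h2.trans h3
    _ = Fintype.card α * nrm p F := by
        field_simp

lemma nrm_lap_le [Fintype ι] [DecidableEq ι] [Fintype α] [Nonempty α] {p : ℝ} (hp : 1 ≤ p)
    (F : (ι → α) → ℝ) :
    nrm p (lap F) ≤ Fintype.card ι * (1 + Fintype.card α) * nrm p F := by
  have h1 : lap F = fun x => ∑ i : ι, (F x + (-1) * avg i F x) := by
    funext x
    unfold lap
    refine Finset.sum_congr rfl ?_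
    intro i _
    ring
  rw [h1]
  refine (nrm_sum_le hp (Finset.univ : Finset ι) (fun i x => F x + (-1) * avg i F x)).trans ?_
  have h2 : ∀ i : ι, nrm p (fun x => F x + (-1) * avg i F x) ≤ (1 + Fintype.card α) * nrm p F := by
    intro i
    refine (nrm_add_le hp F (fun x => (-1) * avg i F x)).trans ?_
    have h3 := nrm_mul_const hp (-1) (avg i F)
    have h4 := nrm_avg_le hp i F
    rw [h3]
    simp only [abs_neg, abs_one, one_mul]
    linarith
  refine (Finset.sum_le_sum (fun i _ => h2 i)).trans ?_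
  rw [Finset.sum_const, Finset.card_univ, nsmul_eq_mul]
  ring_nf
  exact le_refl _

end Pool.Agent.MBD
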