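import Pool.Agent.MBD.Def

set_option autoImplicit false
open Finset Filter Topology

namespace Pool.Agent.MBD

namespace RowC

variable {ι α X : Type}

lemma nrm_eq [Fintype X] (p : ℝ) (F : X → ℝ) :
    nrm p F = (∑ x, |F x| ^ p) ^ (1 / p) / (Fintype.card X : ℝ) ^ (1 / p) := by
  unfold nrm mean
  rw [Real.div_rpow (Finset.sum_nonneg fun x _ => by positivity) (by positivity)]

lemma nrm_nonneg [Fintype X] {p : ℝ} (F : X → ℝ) : 0 ≤ nrm p F := by
  unfold nrm mean
  have : 0 ≤ ∑ x, |F x| ^ p := Finset.sum_nonneg fun x _ => by positivity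
  positivity

lemma nrm_add_le [Fintype X] {p : ℝ} (hp : 1 ≤ p) (F G : X → ℝ) :
    nrm p (fun x => F x + G x) ≤ nrm p F + nrm p G := by
  rw [nrm_eq, nrm_eq, nrm_eq, ← add_div]
  apply div_le_div_of_nonneg_right _ (by positivity)
  exact Real.Lp_add_le Finset.univ F G hp

lemma nrm_zero [Fintype X] {p : ℝ} (hp : 1 ≤ p) : nrm p (fun _ : X => (0 : ℝ)) = 0 := by
  have hp0 : p ≠ 0 := by linarith
  have hp1 : 1 / p ≠ 0 := by
    rw [one_div]; exact inv_ne_zero hp0
  rw [nrm_eq]
  simp [Real.zero_rpow hp0, Real.zero_rpow (inv_ne_zero hp0)]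

lemma nrm_sum_le [Fintype X] {p : ℝ} (hp : 1 ≤ p) {κ : Type} (s : Finset κ) (F : κ → X → ℝ) :
    nrm p (fun x => ∑ k ∈ s, F k x) ≤ ∑ k ∈ s, nrm p (F k) := by
  classical
  induction s using Finset.induction_on with
  | empty => simp [nrm_zero hp]
  | insert k s hk ih =>
    simp_rw [Finset.sum_insert hk]
    exact (nrm_add_le hp _ _).trans (add_le_add_right ih _)

lemma nrm_mono [Fintype X] {p : ℝ} (hp : 1 ≤ p) {F G : X → ℝ} (h : ∀ x, |F x| ≤ |G x|) :
    nrm p F ≤ nrm p G := by
  unfold nrm mean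
  have h0 : 0 ≤ (∑ x, |F x| ^ p) := Finset.sum_nonneg fun x _ => by positivity
  apply Real.rpow_le_rpow (by positivity) _ (by positivity)
  apply div_le_div_of_nonneg_right _ (by positivity)
  exact Finset.sum_le_sum fun x _ => Real.rpow_le_rpow (abs_nonneg _) (h x) (by linarith)

lemma nrm_mul_const [Fintype X] {p : ℝ} (hp : 1 ≤ p) (c : ℝ) (F : X → ℝ) :
    nrm p (fun x => c * F x) = |c| * nrm p F := by
  have hp0 : p ≠ 0 := by linarith
  unfold nrm mean
  have h1 : ∑ x, |c * F x| ^ p = |c| ^ p * ∑ x, |F x| ^ p := by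
    rw [Finset.mul_sum]
    apply Finset.sum_congr rfl
    intro x _
    rw [abs_mul, Real.mul_rpow (abs_nonneg _) (abs_nonneg _)]
  have h0 : 0 ≤ (∑ x, |F x| ^ p) := Finset.sum_nonneg fun x _ => by positivity
  rw [h1, mul_div_assoc, Real.mul_rpow (by positivity) (by positivity), ← Real.rpow_mul
    (abs_nonneg _), mul_one_div_cancel hp0, Real.rpow_one]

/-- independence of the blocks -/
lemma nrm_prod {m : ℕ} [Fintype ι] [DecidableEq ι] [Fintype α] [Nonempty α] {p : ℝ}
    (T : Finset ι) (D : (Fin m → α) → ℝ) :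
    nrm p (fun x : ι × Fin m → α => ∏ j ∈ T, D (fun t => x (j, t))) = nrm p D ^ T.card := by
  classical
  unfold nrm mean
  have h1 : ∑ x : ι × Fin m → α, |∏ j ∈ T, D (fun t => x (j, t))| ^ p =
      ∏ j : ι, ∑ b : Fin m → α, (if j ∈ T then |D b| ^ p else 1) := by
    rw [Finset.prod_univ_sum, Fintype.piFinset_univ]
    refine Fintype.sum_equiv (Equiv.curry ι (Fin m) α) _ _ (fun x => ?_)
    rw [Finset.abs_prod, ← Real.finsetProd_rpow _ _ (fun i _ => abs_nonneg _),
      Finset.prod_ite_mem, Finset.univ_inter]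
    rfl
  have hd : (Fintype.card (Fin m → α) : ℝ) ≠ 0 := by
    have := Fintype.card_pos (α := Fin m → α)
    positivity
  have h2 : (Fintype.card (ι × Fin m → α) : ℝ) =
      ∏ _j : ι, (Fintype.card (Fin m → α) : ℝ) := by
    rw [Fintype.card_congr (Equiv.curry ι (Fin m) α), Fintype.card_fun]
    simp
  have h3 : (∏ j : ι, ∑ b : Fin m → α, (if j ∈ T then |D b| ^ p else 1)) /
      ∏ _j : ι, (Fintype.card (Fin m → α) : ℝ) =
      ((∑ b : Fin m → α, |D b| ^ p) / Fintype.card (Fin m → α)) ^ T.card := by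
    rw [← Finset.prod_div_distrib]
    have h4 : ∀ j : ι, (∑ b : Fin m → α, (if j ∈ T then |D b| ^ p else 1)) /
        (Fintype.card (Fin m → α) : ℝ) =
        if j ∈ T then (∑ b : Fin m → α, |D b| ^ p) / Fintype.card (Fin m → α) else 1 := by
      intro j
      by_cases hj : j ∈ T
      · simp [hj]
      · simp only [hj, if_false]
        rw [Finset.sum_const, Finset.card_univ, nsmul_eq_mul, mul_one, div_self hd]
    simp_rw [h4]
    rw [Finset.prod_ite_mem, Finset.univ_inter, Finset.prod_const]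
  rw [h1, h2, h3]
  have h5 : 0 ≤ (∑ b : Fin m → α, |D b| ^ p) / Fintype.card (Fin m → α) := by
    have : 0 ≤ ∑ b : Fin m → α, |D b| ^ p := Finset.sum_nonneg fun x _ => by positivity
    positivity
  rw [← Real.rpow_natCast, ← Real.rpow_natCast, ← Real.rpow_mul h5, ← Real.rpow_mul h5, mul_comm]

lemma prod_diff_le (s : Finset ι) (a c D : ι → ℝ) (hc : ∀ j, |c j| ≤ 1)
    (hD : ∀ j, |a j - c j| ≤ D j) :
    |∏ j ∈ s, a j - ∏ j ∈ s, c j| ≤ ∏ j ∈ s, (1 + D j) - 1 := by
  classical
  induction s using Finset.induction_on with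
  | empty => simp
  | insert k s hk ih =>
    rw [Finset.prod_insert hk, Finset.prod_insert hk, Finset.prod_insert hk]
    have hDk : 0 ≤ D k := (abs_nonneg _).trans (hD k)
    have h1 : a k * ∏ j ∈ s, a j - c k * ∏ j ∈ s, c j =
        a k * (∏ j ∈ s, a j - ∏ j ∈ s, c j) + (a k - c k) * ∏ j ∈ s, c j := by ring
    have h2 : |a k| ≤ 1 + D k := by
      have := abs_add_le (a k - c k) (c k)
      rw [sub_add_cancel] at this
      linarith [hD k, hc k]
    have h3 : |∏ j ∈ s, c j| ≤ 1 := by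
      rw [Finset.abs_prod]
      exact Finset.prod_le_one (fun _ _ => abs_nonneg _) (fun j _ => hc j)
    rw [h1]
    refine (abs_add_le _ _).trans ?_
    rw [abs_mul, abs_mul]
    have h4 : |a k| * |∏ j ∈ s, a j - ∏ j ∈ s, c j| ≤ (1 + D k) * (∏ j ∈ s, (1 + D j) - 1) :=
      mul_le_mul h2 ih (abs_nonneg _) (by linarith)
    have h5 : |a k - c k| * |∏ j ∈ s, c j| ≤ D k * 1 :=
      mul_le_mul (hD k) h3 (abs_nonneg _) hDk
    linarith

end RowC

open RowC in
lemma nrm_sub_sub_le {ι α : Type} {m : ℕ} [Fintype ι] [DecidableEq ι] [Fintype α] [Nonempty α]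
    (P : α → Prop) [DecidablePred P] {p : ℝ} (hp : 1 ≤ p) {ψ : ZMod 3 → (Fin m → α) → ℝ} {δ : ℝ}
    (hδ : ∀ a, nrm p (fun b => ψ a b - ind P a b) ≤ δ) (f : (ι → ZMod 3) → ℝ) :
    nrm p (fun x => sub ψ f x - f (lam P x)) ≤
      (∑ y, |f y|) * ((1 + 3 * δ) ^ Fintype.card ι - 1) := by
  classical
  set D : (Fin m → α) → ℝ := fun b => ∑ a, |ψ a b - ind P a b| with hDdef
  have hD0 : ∀ b, 0 ≤ D b := fun b => Finset.sum_nonneg fun a _ => abs_nonneg _
  have hDn : nrm p D ≤ 3 * δ := by
    refine (nrm_sum_le hp Finset.univ (fun a b => |ψ a b - ind P a b|)).trans ?_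
    have h1 : ∀ a ∈ (Finset.univ : Finset (ZMod 3)),
        nrm p (fun b => |ψ a b - ind P a b|) ≤ δ := by
      intro a _
      refine le_trans (nrm_mono hp (fun b => ?_)) (hδ a)
      rw [abs_abs]
    refine (Finset.sum_le_card_nsmul _ _ _ h1).trans ?_
    rw [Finset.card_univ, ZMod.card, nsmul_eq_mul]
    norm_num
  have hind : ∀ (x : ι × Fin m → α), f (lam P x) =
      ∑ y : ι → ZMod 3, f y * ∏ j, ind P (y j) (fun t => x (j, t)) := by
    intro x
    rw [Finset.sum_eq_single (lam P x)]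
    · have : ∏ j, ind P (lam P x j) (fun t => x (j, t)) = 1 := by
        apply Finset.prod_eq_one
        intro j _
        simp [ind, lam]
      rw [this, mul_one]
    · intro y _ hy
      obtain ⟨j, hj⟩ := Function.ne_iff.1 hy
      have : ∏ j, ind P (y j) (fun t => x (j, t)) = 0 := by
        apply Finset.prod_eq_zero (Finset.mem_univ j)
        unfold ind
        rw [if_neg]
        intro h
        exact hj h.symm
      rw [this, mul_zero]
    · intro h
      exact absurd (Finset.mem_univ _) h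
  -- pointwise bound
  have hpt : ∀ x : ι × Fin m → α, |sub ψ f x - f (lam P x)| ≤
      |(∑ y, |f y|) * ∑ T ∈ (Finset.univ : Finset ι).powerset.erase ∅,
        ∏ j ∈ T, D (fun t => x (j, t))| := by
    intro x
    have hS : ∑ T ∈ (Finset.univ : Finset ι).powerset.erase ∅, ∏ j ∈ T, D (fun t => x (j, t)) =
        ∏ j, (1 + D (fun t => x (j, t))) - 1 := by
      have h1 := Finset.prod_one_add (s := (Finset.univ : Finset ι))
        (f := fun j => D (fun t => x (j, t)))
      have h2 := Finset.sum_erase_eq_sub (s := (Finset.univ : Finset ι).powerset)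
        (f := fun T => ∏ j ∈ T, D (fun t => x (j, t))) (a := ∅) (Finset.empty_mem_powerset _)
      rw [h2, Finset.prod_empty, ← h1]
    have hnn : 0 ≤ (∑ y, |f y|) * ∑ T ∈ (Finset.univ : Finset ι).powerset.erase ∅,
        ∏ j ∈ T, D (fun t => x (j, t)) :=
      mul_nonneg (Finset.sum_nonneg fun _ _ => abs_nonneg _)
        (Finset.sum_nonneg fun _ _ => Finset.prod_nonneg fun _ _ => hD0 _)
    rw [abs_of_nonneg hnn, hS, hind x]
    unfold sub
    rw [← Finset.sum_sub_distrib, Finset.sum_mul]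
    refine (Finset.abs_sum_le_sum_abs _ _).trans (Finset.sum_le_sum fun y _ => ?_)
    rw [← mul_sub, abs_mul]
    apply mul_le_mul_of_nonneg_left _ (abs_nonneg _)
    apply prod_diff_le
    · intro j
      unfold ind
      split_ifs <;> simp
    · intro j
      exact Finset.single_le_sum (f := fun a => |ψ a (fun t => x (j, t)) -
        ind P a (fun t => x (j, t))|) (fun a _ => abs_nonneg _) (Finset.mem_univ (y j))
  refine (nrm_mono hp hpt).trans ?_
  rw [nrm_mul_const hp, abs_of_nonneg (Finset.sum_nonneg fun _ _ => abs_nonneg _)]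
  apply mul_le_mul_of_nonneg_left _ (Finset.sum_nonneg fun _ _ => abs_nonneg _)
  refine (nrm_sum_le hp _ _).trans ?_
  simp_rw [nrm_prod]
  have h6 : ∀ T ∈ (Finset.univ : Finset ι).powerset.erase ∅, nrm p D ^ T.card ≤ (3 * δ) ^ T.card :=
    fun T _ => pow_le_pow_left₀ (nrm_nonneg D) hDn _
  refine (Finset.sum_le_sum h6).trans (le_of_eq ?_)
  have h2 := Finset.sum_erase_eq_sub (s := (Finset.univ : Finset ι).powerset)
    (f := fun T => (3 * δ) ^ T.card) (a := ∅) (Finset.empty_mem_powerset _)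
  rw [h2, Finset.card_empty, pow_zero]
  have h3 := Finset.prod_one_add (s := (Finset.univ : Finset ι)) (f := fun _ => 3 * δ)
  simp_rw [Finset.prod_const] at h3
  rw [Finset.card_univ] at h3
  rw [h3]

end Pool.Agent.MBD
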