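import Pool.Agent.MBD.NormA
import Pool.Agent.MBD.DegB
import Pool.Agent.MBD.SubC
import Pool.Agent.MBD.LapD
import Pool.Agent.MBD.LawE

set_option autoImplicit false
open Finset Filter Topology

namespace Pool.Agent.MBD

variable {ι α X : Type}

lemma nrm_abs_sub_le [Fintype X] {p : ℝ} (hp : 1 ≤ p) (F G : X → ℝ) :
    |nrm p F - nrm p G| ≤ nrm p (fun x => F x - G x) := by
  have hneg : nrm p (fun x => G x - F x) = nrm p (fun x => F x - G x) := by
    unfold nrm
    congr 2
    funext x
    rw [abs_sub_comm]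
  have h1 : nrm p F ≤ nrm p G + nrm p (fun x => F x - G x) := by
    have := nrm_add_le hp G (fun x => F x - G x)
    simpa using this
  have h2 : nrm p G ≤ nrm p F + nrm p (fun x => G x - F x) := by
    have := nrm_add_le hp F (fun x => G x - F x)
    simpa using this
  rw [abs_sub_le_iff]
  constructor <;> linarith

/-- the norm of a pulled back function converges -/
lemma nrm_lam_tendsto [Fintype ι] [DecidableEq ι] [Fintype α] [Nonempty α] (P : α → Prop)
    [DecidablePred P] (h0 : 0 < pr P) (h1 : pr P < 1) {p : ℝ} (hp : 1 < p)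
    (G : (ι → ZMod 3) → ℝ) :
    Tendsto (fun m : ℕ => nrm p fun x : ι × Fin m → α => G (lam P x)) atTop (𝓝 (nrm p G)) := by
  have h := mean_lam_tendsto (ι := ι) P h0 h1 (fun y => |G y| ^ p)
  unfold nrm
  exact h.rpow_const (Or.inr (by positivity))

lemma exists_bound [Fintype ι] [DecidableEq ι] (G : (ι → ZMod 3) → ℝ) :
    ∃ C : ℝ, 0 ≤ C ∧ ∀ y, |G y| ≤ C := by
  refine ⟨∑ y, |G y|, Finset.sum_nonneg (fun _ _ => abs_nonneg _), fun y => ?_⟩
  exact Finset.single_le_sum (f := fun y => |G y|) (fun _ _ => abs_nonneg _) (Finset.mem_univ y)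

lemma lap_sub_fun [Fintype ι] [DecidableEq ι] [Fintype α] (F G : (ι → α) → ℝ) (x : ι → α) :
    lap (fun x => F x - G x) x = lap F x - lap G x := by
  unfold lap avg mean
  rw [← Finset.sum_sub_distrib]
  apply Finset.sum_congr rfl
  intro i _
  rw [Finset.sum_sub_distrib]
  ring

/-- the error of the substitution tends to zero -/
lemma err_tendsto [Fintype ι] [DecidableEq ι] [Fintype α] [Nonempty α] (P : α → Prop)
    [DecidablePred P] {p : ℝ} (hp : 1 < p)
    {m : ℕ → ℕ} (ψ : ∀ k : ℕ, ZMod 3 → (Fin (m k) → α) → ℝ)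
    (hψ : ∀ a, Tendsto (fun k => nrm p (fun b => ψ k a b - ind P a b)) atTop (𝓝 0))
    (f : (ι → ZMod 3) → ℝ) :
    Tendsto (fun k => nrm p (fun x => sub (ψ k) f x - f (lam P x))) atTop (𝓝 0) := by
  set δ : ℕ → ℝ := fun k => ∑ a, nrm p (fun b => ψ k a b - ind P a b) with hδ
  have hδ0 : Tendsto δ atTop (𝓝 0) := by
    have : Tendsto δ atTop (𝓝 (∑ _a : ZMod 3, (0 : ℝ))) :=
      tendsto_finset_sum _ (fun a _ => hψ a)
    simpa using this
  have hle : ∀ k, nrm p (fun x => sub (ψ k) f x - f (lam P x)) ≤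
      (∑ y, |f y|) * ((1 + 3 * δ k) ^ Fintype.card ι - 1) := by
    intro k
    apply nrm_sub_sub_le P hp.le
    intro a
    exact Finset.single_le_sum (f := fun a => nrm p (fun b => ψ k a b - ind P a b))
      (fun _ _ => nrm_nonneg _) (Finset.mem_univ a)
  have hlim : Tendsto (fun k => (∑ y, |f y|) * ((1 + 3 * δ k) ^ Fintype.card ι - 1)) atTop
      (𝓝 ((∑ y, |f y|) * ((1 + 3 * 0) ^ Fintype.card ι - 1))) := by
    apply Tendsto.const_mul
    apply Tendsto.sub_const
    apply Tendsto.pow
    exact (hδ0.const_mul 3).const_add 1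
  have hz : (∑ y, |f y|) * ((1 + 3 * (0 : ℝ)) ^ Fintype.card ι - 1) = 0 := by simp
  rw [hz] at hlim
  exact squeeze_zero (fun _ => nrm_nonneg _) hle hlim

lemma rpow_div_tendsto {p : ℝ} (hp : 1 < p) :
    Tendsto (fun n : ℕ => (1 + (n : ℝ)) ^ (1 / p) / n) atTop (𝓝 0) := by
  have hq : 1 / p < 1 := by
    rw [div_lt_one (by linarith)]; exact hp
  have hq0 : 0 < 1 / p := by positivity
  have h1 : Tendsto (fun n : ℕ => (2 : ℝ) ^ (1 / p) * (n : ℝ) ^ (-(1 - 1 / p))) atTop
      (𝓝 ((2 : ℝ) ^ (1 / p) * 0)) := by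
    apply Tendsto.const_mul
    exact (tendsto_rpow_neg_atTop (by linarith : 0 < 1 - 1 / p)).comp tendsto_natCast_atTop_atTop
  rw [mul_zero] at h1
  refine squeeze_zero' (Eventually.of_forall fun n => by positivity) ?_ h1
  filter_upwards [eventually_ge_atTop 1] with n hn
  have hn1 : (1 : ℝ) ≤ n := by exact_mod_cast hn
  have hn0 : (0 : ℝ) < n := by linarith
  calc (1 + (n : ℝ)) ^ (1 / p) / n ≤ (2 * (n : ℝ)) ^ (1 / p) / n := by
        gcongr
        linarith
    _ = (2 : ℝ) ^ (1 / p) * (n : ℝ) ^ (-(1 - 1 / p)) := by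
        rw [Real.mul_rpow (by norm_num) hn0.le, mul_div_assoc]
        congr 1
        rw [neg_sub, Real.rpow_sub hn0, Real.rpow_one]

lemma nrm_sub_tendsto [Fintype ι] [DecidableEq ι] [Fintype α] [Nonempty α] (P : α → Prop)
    [DecidablePred P] (h0 : 0 < pr P) (h1 : pr P < 1) {p : ℝ} (hp : 1 < p) (hp2 : p ≤ 2)
    {m : ℕ → ℕ} (hm : Tendsto m atTop atTop) (ψ : ∀ k : ℕ, ZMod 3 → (Fin (m k) → α) → ℝ)
    (hψ : ∀ a, Tendsto (fun k => nrm p (fun b => ψ k a b - ind P a b)) atTop (𝓝 0))
    (f : (ι → ZMod 3) → ℝ) :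
    Tendsto (fun k => nrm p (sub (ψ k) f)) atTop (𝓝 (nrm p f)) ∧
    Tendsto (fun k => nrm p (lap (sub (ψ k) f)) / (m k)) atTop
      (𝓝 (3 * pr P * (1 - pr P) * nrm p (lap f))) := by
  have herr := err_tendsto P hp ψ hψ f
  constructor
  · -- first part
    have hA : Tendsto (fun k => nrm p fun x : ι × Fin (m k) → α => f (lam P x)) atTop
        (𝓝 (nrm p f)) := (nrm_lam_tendsto P h0 h1 hp f).comp hm
    have hB : Tendsto (fun k => nrm p (sub (ψ k) f) -
        nrm p (fun x : ι × Fin (m k) → α => f (lam P x))) atTop (𝓝 0) := by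
      apply squeeze_zero_norm _ herr
      intro k
      rw [Real.norm_eq_abs]
      exact nrm_abs_sub_le hp.le _ _
    have := hB.add hA
    simpa using this
  · set c : ℝ := 3 * pr P * (1 - pr P) with hc
    have hc0 : 0 ≤ c := by
      rw [hc]
      have : 0 ≤ 1 - pr P := by linarith
      positivity
    -- main term
    have hA : Tendsto (fun k => c * nrm p fun x : ι × Fin (m k) → α => lap f (lam P x)) atTop
        (𝓝 (c * nrm p (lap f))) :=
      ((nrm_lam_tendsto P h0 h1 hp (lap f)).comp hm).const_mul c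
    -- bound of the drift
    have hD : ∃ C : ℝ, 0 ≤ C ∧ ∀ (j : ι) (y : ι → ZMod 3), |drift P f j y| ≤ C := by
      choose C hC0 hC using fun j : ι => exists_bound (drift P f j)
      refine ⟨∑ j, C j, Finset.sum_nonneg (fun j _ => hC0 j), fun j y => (hC j y).trans ?_⟩
      exact Finset.single_le_sum (f := C) (fun j _ => hC0 j) (Finset.mem_univ j)
    obtain ⟨C, hC0, hC⟩ := hD
    -- error terms
    have hE1 : Tendsto (fun k => (Fintype.card ι : ℝ) * (1 + Fintype.card α) *
        nrm p (fun x => sub (ψ k) f x - f (lam P x))) atTop (𝓝 0) := by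
      have := herr.const_mul ((Fintype.card ι : ℝ) * (1 + Fintype.card α))
      simpa using this
    have hE2 : Tendsto (fun k => (Fintype.card ι : ℝ) * C *
        ((1 + ((m k : ℕ) : ℝ)) ^ (1 / p) / (m k : ℕ))) atTop (𝓝 0) := by
      have := ((rpow_div_tendsto hp).comp hm).const_mul ((Fintype.card ι : ℝ) * C)
      simpa using this
    have hE := hE1.add hE2
    rw [add_zero] at hE
    have hB : Tendsto (fun k => nrm p (lap (sub (ψ k) f)) / (m k) -
        c * nrm p (fun x : ι × Fin (m k) → α => lap f (lam P x))) atTop (𝓝 0) := by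
      apply squeeze_zero_norm' _ hE
      filter_upwards [hm.eventually_ge_atTop 1] with k hk
      have hk0 : (0 : ℝ) < m k := by exact_mod_cast hk
      rw [Real.norm_eq_abs]
      set M : ℝ := (m k : ℝ) with hM
      have e1 : c * nrm p (fun x : ι × Fin (m k) → α => lap f (lam P x)) =
          nrm p (fun x : ι × Fin (m k) → α => c * M * lap f (lam P x)) / M := by
        rw [nrm_mul_const hp.le, abs_of_nonneg (by positivity)]
        field_simp
      rw [e1, ← sub_div, abs_div, abs_of_pos hk0, div_le_iff₀ hk0]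
      refine (nrm_abs_sub_le hp.le _ _).trans ?_
      have e2 : ∀ x : ι × Fin (m k) → α,
          lap (sub (ψ k) f) x - c * M * lap f (lam P x) =
          lap (fun x => sub (ψ k) f x - f (lam P x)) x +
          ∑ j, ((cnt P (fun t => x (j, t)) : ℝ) - pr P * M) * drift P f j (lam P x) := by
        intro x
        rw [lap_sub_fun, lap_pull P f x]
        simp only [hc]
        ring
      rw [show (fun x : ι × Fin (m k) → α => lap (sub (ψ k) f) x - c * M * lap f (lam P x)) =
        fun x => lap (fun x => sub (ψ k) f x - f (lam P x)) x +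
          ∑ j, ((cnt P (fun t => x (j, t)) : ℝ) - pr P * M) * drift P f j (lam P x) from
        funext e2]
      refine (nrm_add_le hp.le _ _).trans ?_
      have b1 := nrm_lap_le (ι := ι × Fin (m k)) (α := α) hp.le
        (fun x => sub (ψ k) f x - f (lam P x))
      have b1' : nrm p (fun x : ι × Fin (m k) → α =>
          lap (fun x => sub (ψ k) f x - f (lam P x)) x) ≤
          ((Fintype.card ι : ℝ) * (1 + Fintype.card α) *
            nrm p (fun x => sub (ψ k) f x - f (lam P x))) * M := by
        refine b1.trans (le_of_eq ?_)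
        rw [Fintype.card_prod, Fintype.card_fin]
        push_cast
        ring
      have b2 : nrm p (fun x : ι × Fin (m k) → α =>
          ∑ j, ((cnt P (fun t => x (j, t)) : ℝ) - pr P * M) * drift P f j (lam P x)) ≤
          (Fintype.card ι : ℝ) * C * ((1 + M) ^ (1 / p) / M) * M := by
        refine (nrm_sum_le hp.le _ _).trans ?_
        have : ∀ j ∈ (Finset.univ : Finset ι), nrm p (fun x : ι × Fin (m k) → α =>
            ((cnt P (fun t => x (j, t)) : ℝ) - pr P * M) * drift P f j (lam P x)) ≤
            C * (1 + M) ^ (1 / p) := by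
          intro j _
          calc _ ≤ nrm p (fun x : ι × Fin (m k) → α =>
                C * ((cnt P (fun t => x (j, t)) : ℝ) - pr P * M)) := by
                apply nrm_mono hp.le
                intro x
                rw [abs_mul, abs_mul, abs_of_nonneg hC0, mul_comm]
                exact mul_le_mul_of_nonneg_right (hC j _) (abs_nonneg _)
            _ = C * nrm p (fun x : ι × Fin (m k) → α =>
                ((cnt P (fun t => x (j, t)) : ℝ) - pr P * M)) := by
                rw [nrm_mul_const hp.le, abs_of_nonneg hC0]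
            _ ≤ _ := by
                apply mul_le_mul_of_nonneg_left _ hC0
                exact nrm_cnt_le P hp.le hp2 j
        refine (Finset.sum_le_sum this).trans (le_of_eq ?_)
        simp only [Finset.sum_const, Finset.card_univ, nsmul_eq_mul]
        field_simp
      calc _ ≤ _ := add_le_add b1' b2
        _ = _ := by ring
    have := hB.add hA
    simpa using this

end Pool.Agent.MBD
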