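import Pool.Agent.MBD.TendH
import Pool.Agent.MBD.Block2

set_option autoImplicit false
open Finset Filter Topology

namespace Pool.Agent.MBD.H59

variable {ι α X : Type}

/-- Existence of a function on a ternary cube with ratio above `K`. -/
def Tern (K : ℝ) : Prop := ∃ (ι : Type) (_ : Fintype ι) (_ : DecidableEq ι) (d : ℕ)
    (f : (ι → ZMod 3) → ℝ), f ∈ DegLE ι (ZMod 3) d ∧
      K * d * nrm (201 / 200) f < nrm (201 / 200) (lap f)

lemma pr_one : pr (fun x : ZMod 3 => x = 1) = 1 / 3 := by
  unfold pr mean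
  rw [Finset.sum_ite_eq' univ (1 : ZMod 3) (fun _ => (1 : ℝ))]
  simp [ZMod.card]

lemma pr_true : pr (fun x : Bool => x = true) = 1 / 2 := by
  unfold pr mean
  simp

lemma tern_step {K : ℝ} (h : Tern K) : Tern (11 / 10 * K) := by
  obtain ⟨ι, i1, i2, d, f, hf, hK⟩ := h
  obtain ⟨ψ, h1, hdeg, hlim⟩ := block_approx
  have hm : Tendsto (fun k : ℕ => 10 * k) atTop atTop :=
    tendsto_atTop_mono (fun k => by show k ≤ 10 * k; omega) tendsto_id
  have hpr := pr_one
  obtain ⟨hA, hB⟩ := nrm_sub_tendsto (fun x : ZMod 3 => x = 1)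
    (by rw [hpr]; norm_num) (by rw [hpr]; norm_num)
    (p := 201 / 200) (by norm_num) (by norm_num) hm ψ hlim f
  rw [hpr] at hB
  have hA' := hA.const_mul (11 / 10 * K * (6 * d) / 10)
  have hlap : 0 ≤ nrm (201 / 200) (lap f) := nrm_nonneg _
  have hlt : 11 / 10 * K * (6 * d) / 10 * nrm (201 / 200) f
      < 3 * (1 / 3) * (1 - 1 / 3) * nrm (201 / 200) (lap f) := by
    nlinarith
  have hev := (hA'.eventually_lt hB hlt).and (eventually_ge_atTop 1)
  obtain ⟨k, hk, hk1⟩ := hev.exists
  refine ⟨ι × Fin (10 * k), inferInstance, inferInstance, d * (6 * k), sub (ψ k) f,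
    deg_sub (hdeg k) (h1 k) hf, ?_⟩
  have hk0 : (0 : ℝ) < ((10 * k : ℕ) : ℝ) := by
    have : 0 < 10 * k := by omega
    exact_mod_cast this
  rw [lt_div_iff₀ hk0] at hk
  push_cast at hk ⊢
  calc 11 / 10 * K * (d * (6 * k)) * nrm (201 / 200) (sub (ψ k) f)
      = 11 / 10 * K * (6 * d) / 10 * nrm (201 / 200) (sub (ψ k) f) * (10 * k) := by ring
    _ < _ := hk

lemma tern_start : ∃ K : ℝ, 0 < K ∧ Tern K := by
  classical
  let f : (Fin 1 → ZMod 3) → ℝ := fun y => if y 0 = 0 then 1 else 0
  have hf : f ∈ DegLE (Fin 1) (ZMod 3) 1 := by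
    apply Submodule.subset_span
    refine ⟨univ, by simp, ?_⟩
    intro x y hxy
    have : x = y := funext fun i => hxy i (mem_univ i)
    rw [this]
  have hpos : 0 < nrm (201 / 200) f := by
    unfold nrm mean
    apply Real.rpow_pos_of_pos
    apply div_pos
    · apply Finset.sum_pos'
      · intro x _
        positivity
      · refine ⟨0, mem_univ _, ?_⟩
        have : f 0 = 1 := by simp [f]
        rw [this]
        norm_num
    · positivity
  have hpos2 : 0 < nrm (201 / 200) (lap f) := by
    unfold nrm mean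
    apply Real.rpow_pos_of_pos
    apply div_pos
    · apply Finset.sum_pos'
      · intro x _
        positivity
      · refine ⟨0, mem_univ _, ?_⟩
        apply Real.rpow_pos_of_pos
        rw [abs_pos]
        have h2 : lap f 0 = 1 - (1 : ℝ) / 3 := by
          unfold lap avg mean
          rw [Fin.sum_univ_one]
          have h0 : f 0 = 1 := by simp [f]
          rw [h0]
          congr 1
          congr 1
          · have : ∀ a : ZMod 3, f (Function.update 0 0 a) = if a = 0 then 1 else 0 := by
              intro a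
              simp [f]
            simp_rw [this]
            simp
        rw [h2]
        norm_num
    · positivity
  refine ⟨nrm (201 / 200) (lap f) / (2 * nrm (201 / 200) f), by positivity,
    Fin 1, inferInstance, inferInstance, 1, f, hf, ?_⟩
  rw [div_mul_eq_mul_div, div_mul_eq_mul_div, div_lt_iff₀ (by positivity)]
  push_cast
  nlinarith [mul_pos hpos hpos2]

lemma tern_mono {K L : ℝ} (h : K ≤ L) (hL : Tern L) : Tern K := by
  obtain ⟨ι, i1, i2, d, f, hf, hK⟩ := hL
  refine ⟨ι, i1, i2, d, f, hf, lt_of_le_of_lt ?_ hK⟩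
  have : 0 ≤ nrm (201 / 200) f := nrm_nonneg _
  gcongr

theorem tern_all (K : ℝ) : Tern K := by
  obtain ⟨K0, h0, hK0⟩ := tern_start
  have hn : ∀ n : ℕ, Tern ((11 / 10 : ℝ) ^ n * K0) := by
    intro n
    induction n with
    | zero => simpa using hK0
    | succ n ih =>
      have := tern_step ih
      rw [pow_succ]
      convert this using 1
      ring
  obtain ⟨n, hn'⟩ := pow_unbounded_of_one_lt (K / K0) (show (1 : ℝ) < 11 / 10 by norm_num)
  refine tern_mono ?_ (hn n)
  rw [div_lt_iff₀ h0] at hn'
  exact hn'.le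

/-- the ratio is unbounded on ternary cubes -/
theorem ternary_unbounded (K : ℝ) : ∃ (ι : Type) (_ : Fintype ι) (_ : DecidableEq ι) (d : ℕ)
    (f : (ι → ZMod 3) → ℝ), f ∈ DegLE ι (ZMod 3) d ∧
      K * d * nrm (201 / 200) f < nrm (201 / 200) (lap f) := tern_all K

/-- the ratio is unbounded on binary cubes -/
theorem binary_unbounded (K : ℝ) : ∃ (ι : Type) (_ : Fintype ι) (_ : DecidableEq ι) (d : ℕ)
    (f : (ι → Bool) → ℝ), f ∈ DegLE ι Bool d ∧
      K * d * nrm (201 / 200) f < nrm (201 / 200) (lap f) := by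
  obtain ⟨ι, i1, i2, d, f, hf, hK⟩ := ternary_unbounded (4 / 3 * K)
  have hpr := pr_true
  obtain ⟨hA, hB⟩ := nrm_sub_tendsto (ι := ι) (fun x : Bool => x = true)
    (by rw [hpr]; norm_num) (by rw [hpr]; norm_num)
    (p := 201 / 200) (by norm_num) (by norm_num) (m := fun k => k) tendsto_id
    (fun k => ind (fun x : Bool => x = true))
    (by
      intro a
      have : ∀ k : ℕ, nrm (201 / 200) (fun b : Fin k → Bool =>
          ind (fun x : Bool => x = true) a b - ind (fun x : Bool => x = true) a b) = 0 := by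
        intro k
        unfold nrm mean
        simp only [sub_self, abs_zero]
        rw [Real.zero_rpow (by norm_num)]
        simp only [Finset.sum_const_zero, zero_div]
        rw [Real.zero_rpow (by norm_num)]
      simp_rw [this]
      exact tendsto_const_nhds) f
  rw [hpr] at hB
  have hA' := hA.const_mul (K * d)
  have hlt : K * d * nrm (201 / 200) f
      < 3 * (1 / 2) * (1 - 1 / 2) * nrm (201 / 200) (lap f) := by
    linarith
  have hev := (hA'.eventually_lt hB hlt).and (eventually_ge_atTop 1)
  obtain ⟨k, hk, hk1⟩ := hev.exists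
  refine ⟨ι × Fin k, inferInstance, inferInstance, d * k,
    sub (ind (fun x : Bool => x = true)) f, deg_sub ?_ ?_ hf, ?_⟩
  · intro a
    apply Submodule.subset_span
    refine ⟨univ, by simp, ?_⟩
    intro x y hxy
    have : x = y := funext fun i => hxy i (mem_univ i)
    rw [this]
  · intro b
    unfold ind
    rw [Finset.sum_ite_eq univ ((cnt (fun x : Bool => x = true) b : ℕ) : ZMod 3) (fun _ => (1 : ℝ))]
    simp
  · have hk0 : (0 : ℝ) < (k : ℝ) := by
      have : 0 < k := by omega
      exact_mod_cast this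
    rw [lt_div_iff₀ hk0] at hk
    push_cast at hk ⊢
    calc K * (d * k) * nrm (201 / 200) (sub (ind (fun x : Bool => x = true)) f)
        = K * d * nrm (201 / 200) (sub (ind (fun x : Bool => x = true)) f) * k := by ring
      _ < _ := hk

end Pool.Agent.MBD.H59
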