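import Pool.Agent.MBD.Def

set_option autoImplicit false
open Finset Filter Topology

namespace Pool.Agent.MBD.G59

variable {ι α X : Type}

/-- The sign of a bit. -/
def sg (b : Bool) : ℝ := if b then (1 : ℝ) else -1

/-- The Walsh function. -/
noncomputable def chi {N : ℕ} (S : Finset (Fin N)) (x : Fin N → Bool) : ℝ := ∏ i ∈ S, sg (x i)

lemma lap_add [Fintype ι] [DecidableEq ι] [Fintype α] (F G : (ι → α) → ℝ) (x : ι → α) :
    lap (F + G) x = lap F x + lap G x := by
  unfold lap avg mean
  rw [← Finset.sum_add_distrib]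
  apply Finset.sum_congr rfl
  intro i _
  simp only [Pi.add_apply, Finset.sum_add_distrib, add_div]
  ring

lemma lap_smul [Fintype ι] [DecidableEq ι] [Fintype α] (c : ℝ) (F : (ι → α) → ℝ) (x : ι → α) :
    lap (c • F) x = c * lap F x := by
  unfold lap avg mean
  rw [Finset.mul_sum]
  apply Finset.sum_congr rfl
  intro i _
  simp only [Pi.smul_apply, smul_eq_mul, ← Finset.mul_sum]
  ring

lemma lap_zero [Fintype ι] [DecidableEq ι] [Fintype α] (x : ι → α) :
    lap (0 : (ι → α) → ℝ) x = 0 := by
  unfold lap avg mean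
  simp

lemma lap_chi {N : ℕ} (S : Finset (Fin N)) (x : Fin N → Bool) :
    lap (chi S) x = S.card * chi S x := by
  have h1 : ∀ i : Fin N, chi S x - avg i (chi S) x = if i ∈ S then chi S x else 0 := by
    intro i
    unfold avg mean
    simp only [Fintype.sum_bool, Fintype.card_bool]
    by_cases hi : i ∈ S
    · rw [if_pos hi]
      have h2 : ∀ a : Bool, chi S (Function.update x i a) = sg a * ∏ j ∈ S.erase i, sg (x j) := by
        intro a
        unfold chi
        rw [← Finset.mul_prod_erase S _ hi, Function.update_self]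
        congr 1
        apply Finset.prod_congr rfl
        intro j hj
        rw [Function.update_of_ne (Finset.ne_of_mem_erase hj)]
      rw [h2, h2]
      simp [sg]
    · rw [if_neg hi]
      have h2 : ∀ a : Bool, chi S (Function.update x i a) = chi S x := by
        intro a
        unfold chi
        apply Finset.prod_congr rfl
        intro j hj
        rw [Function.update_of_ne]
        rintro rfl
        exact hi hj
      rw [h2, h2]
      push_cast
      ring
  unfold lap
  simp_rw [h1]
  rw [← Finset.sum_filter]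
  simp

/-- Functions with a Walsh expansion of degree at most `D`. -/
def Good (N D : ℕ) : Submodule ℝ ((Fin N → Bool) → ℝ) where
  carrier := {F | ∃ c : Finset (Fin N) → ℝ, (∀ S, D < S.card → c S = 0) ∧
      (∀ x, ∑ S : Finset (Fin N), c S * chi S x = F x) ∧
      (∀ x, ∑ S : Finset (Fin N), (S.card : ℝ) * c S * chi S x = lap F x)}
  add_mem' := by
    rintro F G ⟨c, h1, h2, h3⟩ ⟨c', h1', h2', h3'⟩
    refine ⟨fun S => c S + c' S, fun S hS => by show c S + c' S = 0; rw [h1 S hS, h1' S hS, add_zero], fun x => ?_,
      fun x => ?_⟩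
    · rw [Pi.add_apply, ← h2, ← h2', ← Finset.sum_add_distrib]
      exact Finset.sum_congr rfl fun S _ => by ring
    · rw [lap_add, ← h3, ← h3', ← Finset.sum_add_distrib]
      exact Finset.sum_congr rfl fun S _ => by ring
  zero_mem' := ⟨fun _ => 0, fun _ _ => rfl, fun x => by simp, fun x => by simp [lap_zero]⟩
  smul_mem' := by
    rintro a F ⟨c, h1, h2, h3⟩
    refine ⟨fun S => a * c S, fun S hS => by show a * c S = 0; rw [h1 S hS, mul_zero], fun x => ?_, fun x => ?_⟩
    · rw [Pi.smul_apply, smul_eq_mul, ← h2, Finset.mul_sum]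
      exact Finset.sum_congr rfl fun S _ => by ring
    · rw [lap_smul, ← h3, Finset.mul_sum]
      exact Finset.sum_congr rfl fun S _ => by ring

lemma chi_good {N D : ℕ} {S : Finset (Fin N)} (hS : S.card ≤ D) : chi S ∈ Good N D := by
  refine ⟨fun T => if T = S then 1 else 0, fun T hT => if_neg ?_, fun x => ?_, fun x => ?_⟩
  · rintro rfl
    omega
  · simp
  · rw [lap_chi]
    simp

lemma junta_good {N D : ℕ} {G : (Fin N → Bool) → ℝ} {T : Finset (Fin N)} (hT : T.card ≤ D)
    (hG : Junta T G) : G ∈ Good N D := by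
  classical
  have key : G = ∑ A ∈ T.powerset, G (fun i => decide (i ∈ A)) •
      ∑ S ∈ T.powerset, ((∏ i ∈ S, (1 / 2 : ℝ) * sg (decide (i ∈ A))) * ∏ _i ∈ T \ S, (1 / 2 : ℝ)) •
        chi S := by
    funext x
    have h1 : ∀ A : Finset (Fin N), (∑ S ∈ T.powerset,
        ((∏ i ∈ S, (1 / 2 : ℝ) * sg (decide (i ∈ A))) * ∏ _i ∈ T \ S, (1 / 2 : ℝ)) • chi S) x
          = ∏ i ∈ T, if x i = decide (i ∈ A) then (1 : ℝ) else 0 := by
      intro A
      have h2 : ∀ i ∈ T, (if x i = decide (i ∈ A) then (1 : ℝ) else 0)
          = (1 / 2 : ℝ) * sg (decide (i ∈ A)) * sg (x i) + 1 / 2 := by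
        intro i _
        by_cases hA : i ∈ A <;> cases hx : x i <;> simp [sg, hA] <;> norm_num
      rw [Finset.prod_congr rfl h2, Finset.prod_add, Finset.sum_apply]
      apply Finset.sum_congr rfl
      intro S _
      rw [Pi.smul_apply, smul_eq_mul]
      unfold chi
      rw [Finset.prod_mul_distrib (s := S) (g := fun i => sg (x i))]
      ring
    rw [Finset.sum_apply]
    simp_rw [Pi.smul_apply, smul_eq_mul, h1]
    rw [Finset.sum_eq_single (T.filter fun i => x i = true)]
    · have h3 : (∏ i ∈ T, if x i = decide (i ∈ T.filter fun i => x i = true) then (1 : ℝ) else 0)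
          = 1 := by
        apply Finset.prod_eq_one
        intro i hi
        rw [if_pos]
        cases hx : x i <;> simp [hi, hx]
      rw [h3, mul_one]
      apply hG
      intro i hi
      cases hx : x i <;> simp [hi, hx]
    · intro A hA hne
      rw [Finset.mem_powerset] at hA
      have h4 : ∃ i ∈ T, x i ≠ decide (i ∈ A) := by
        by_contra hcon
        push Not at hcon
        apply hne
        ext i
        rw [Finset.mem_filter]
        constructor
        · intro hi
          refine ⟨hA hi, ?_⟩
          rw [hcon i (hA hi)]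
          simpa using hi
        · rintro ⟨hiT, hxi⟩
          have := hcon i hiT
          rw [hxi] at this
          simpa using this.symm
      obtain ⟨i, hiT, hi⟩ := h4
      rw [Finset.prod_eq_zero hiT (if_neg hi), mul_zero]
    · intro h
      exact absurd (Finset.mem_powerset.mpr (Finset.filter_subset _ _)) h
  rw [key]
  apply Submodule.sum_mem
  intro A _
  apply Submodule.smul_mem
  apply Submodule.sum_mem
  intro S hS
  apply Submodule.smul_mem
  apply chi_good
  exact (Finset.card_le_card (Finset.mem_powerset.mp hS)).trans hT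

lemma walsh_form {N : ℕ} {F : (Fin N → Bool) → ℝ} {D : ℕ} (hF : F ∈ DegLE (Fin N) Bool D) :
    ∃ c : Finset (Fin N) → ℝ, (∀ S, D < S.card → c S = 0) ∧
      (∀ x, ∑ S : Finset (Fin N), c S * ∏ i ∈ S, (if x i then (1 : ℝ) else -1) = F x) ∧
      (∀ x, ∑ S : Finset (Fin N), (S.card : ℝ) * c S * ∏ i ∈ S, (if x i then (1 : ℝ) else -1) =
        lap F x) := by
  have h : DegLE (Fin N) Bool D ≤ Good N D := by
    unfold DegLE
    rw [Submodule.span_le]
    rintro G ⟨T, hT, hG⟩
    exact junta_good hT hG
  exact h hF

lemma exists_fin_reindex [Fintype ι] [DecidableEq ι] {F : (ι → Bool) → ℝ} {D : ℕ}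
    (hF : F ∈ DegLE ι Bool D) (p : ℝ) : ∃ G : (Fin (Fintype.card ι) → Bool) → ℝ,
      G ∈ DegLE (Fin (Fintype.card ι)) Bool D ∧ nrm p G = nrm p F ∧
        nrm p (lap G) = nrm p (lap F) := by
  classical
  let e : ι ≃ Fin (Fintype.card ι) := Fintype.equivFin ι
  let E : (Fin (Fintype.card ι) → Bool) ≃ (ι → Bool) := Equiv.arrowCongr e.symm (Equiv.refl Bool)
  have hE : ∀ (y : Fin (Fintype.card ι) → Bool) (i : ι), E y i = y (e i) := by
    intro y i
    rfl
  have hn : ∀ H : (ι → Bool) → ℝ, nrm p (fun y => H (E y)) = nrm p H := by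
    intro H
    unfold nrm mean
    rw [E.sum_comp (fun x => |H x| ^ p)]
    rw [Fintype.card_congr E]
  have hl : ∀ y, lap (fun y => F (E y)) y = lap F (E y) := by
    intro y
    unfold lap avg
    rw [← e.sum_comp]
    apply Finset.sum_congr rfl
    intro i _
    congr 2
    funext a
    show F (E (Function.update y (e i) a)) = F (Function.update (E y) i a)
    congr 1
    funext j
    rw [hE]
    by_cases hj : j = i
    · subst hj
      rw [Function.update_self, Function.update_self]
    · rw [Function.update_of_ne hj, Function.update_of_ne (fun h => hj (e.injective h)), hE]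
  refine ⟨fun y => F (E y), ?_, hn F, ?_⟩
  · unfold DegLE at hF ⊢
    refine Submodule.span_induction (p := fun F _ => (fun y => F (E y)) ∈
      Submodule.span ℝ {G | ∃ T : Finset (Fin (Fintype.card ι)), T.card ≤ D ∧ Junta T G})
      ?_ ?_ ?_ ?_ hF
    · rintro G ⟨T, hT, hG⟩
      apply Submodule.subset_span
      refine ⟨T.map e.toEmbedding, by rwa [Finset.card_map], ?_⟩
      intro x y hxy
      apply hG
      intro i hi
      rw [hE, hE]
      exact hxy (e i) (Finset.mem_map_of_mem _ hi)
    · exact Submodule.zero_mem _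
    · intro G H _ _ hG hH
      exact Submodule.add_mem _ hG hH
    · intro a G _ hG
      exact Submodule.smul_mem _ a hG
  · rw [← hn (lap F)]
    congr 1
    funext y
    exact hl y

end Pool.Agent.MBD.G59
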